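import Pool.Agent.H36.Tight.Defs

/-!
A computable test for the mod 2 linking number of two polygons whose vertices depend
polynomially on a small parameter.
-/

namespace Pool.Agent.H36.Tight

open scoped Topology

/-- Evaluate the polynomial with coefficients `l` (constant term first). -/
def pev (ε : ℝ) : List ℤ → ℝ
  | [] => 0
  | a :: l => (a : ℝ) + ε * pev ε l

/-- Sum of polynomials. -/
def padd : List ℤ → List ℤ → List ℤ
  | [], m => m
  | l, [] => l
  | a :: l, b :: m => (a + b) :: padd l m

/-- Negation. -/
def pneg (l : List ℤ) : List ℤ := l.map fun a => -a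

/-- Scalar multiple. -/
def psmul (c : ℤ) (l : List ℤ) : List ℤ := l.map fun a => c * a

/-- Product. -/
def pmul : List ℤ → List ℤ → List ℤ
  | [], _ => []
  | a :: l, m => padd (psmul a m) (0 :: pmul l m)

lemma pev_padd (ε : ℝ) : ∀ l m, pev ε (padd l m) = pev ε l + pev ε m
  | [], m => by simp [padd, pev]
  | a :: l, [] => by simp [padd, pev]
  | a :: l, b :: m => by
    simp only [padd, pev, pev_padd ε l m, Int.cast_add]
    ring

lemma pev_pneg (ε : ℝ) : ∀ l, pev ε (pneg l) = -pev ε l
  | [] => by simp [pneg, pev]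
  | a :: l => by
    have := pev_pneg ε l
    simp only [pneg] at this
    simp only [pneg, List.map_cons, pev, this, Int.cast_neg]
    ring

lemma pev_psmul (ε : ℝ) (c : ℤ) : ∀ l, pev ε (psmul c l) = c * pev ε l
  | [] => by simp [psmul, pev]
  | a :: l => by
    have := pev_psmul ε c l
    simp only [psmul] at this
    simp only [psmul, List.map_cons, pev, this, Int.cast_mul]
    ring

lemma pev_pmul (ε : ℝ) : ∀ l m, pev ε (pmul l m) = pev ε l * pev ε m
  | [], m => by simp [pmul, pev]
  | a :: l, m => by
    simp only [pmul, pev_padd, pev_psmul, pev, pev_pmul ε l m, Int.cast_zero]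
    ring

/-- Sum of the absolute values of the coefficients. -/
def pabs : List ℤ → ℤ
  | [] => 0
  | a :: l => |a| + pabs l

lemma abs_pev_le {ε : ℝ} (h0 : 0 ≤ ε) (h1 : ε ≤ 1) : ∀ l, |pev ε l| ≤ pabs l
  | [] => by simp [pev, pabs]
  | a :: l => by
    have ih := abs_pev_le h0 h1 l
    simp only [pev, pabs, Int.cast_add, Int.cast_abs]
    calc |(a : ℝ) + ε * pev ε l| ≤ |(a : ℝ)| + |ε * pev ε l| := abs_add_le _ _
      _ = |(a : ℝ)| + ε * |pev ε l| := by rw [abs_mul, abs_of_nonneg h0]
      _ ≤ |(a : ℝ)| + 1 * |pev ε l| := by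
          gcongr
      _ ≤ |(a : ℝ)| + pabs l := by linarith

/-- The polynomial is positive for all `0 < ε` with `ε * N < 1`. -/
def ppos (N : ℤ) : List ℤ → Bool
  | [] => false
  | a :: l => if a = 0 then ppos N l else decide (0 < a) && decide (pabs l ≤ N * a)

lemma ppos_spec {N : ℤ} {ε : ℝ} (h0 : 0 < ε) (h1 : ε ≤ 1) (hN : ε * N < 1) :
    ∀ l, ppos N l = true → 0 < pev ε l
  | [], h => by simp [ppos] at h
  | a :: l, h => by
    simp only [ppos] at h
    split_ifs at h with ha
    · have := ppos_spec h0 h1 hN l h
      simp only [pev, ha, Int.cast_zero, zero_add]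
      exact mul_pos h0 this
    · simp only [Bool.and_eq_true, decide_eq_true_eq] at h
      obtain ⟨ha0, hl⟩ := h
      have h2 := abs_pev_le h0.le h1 l
      have h3 : -(pabs l : ℝ) ≤ pev ε l := by
        have := neg_abs_le (pev ε l)
        linarith
      have h4 : (pabs l : ℝ) ≤ N * a := by exact_mod_cast hl
      have h5 : (0 : ℝ) < a := by exact_mod_cast ha0
      simp only [pev]
      have h6 : ε * (pabs l : ℝ) ≤ ε * (N * a) := mul_le_mul_of_nonneg_left h4 h0.le
      have h7 : ε * (N * a) < a := by
        have := mul_lt_mul_of_pos_right hN h5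
        linarith
      have h8 : ε * -(pabs l : ℝ) ≤ ε * pev ε l := mul_le_mul_of_nonneg_left h3 h0.le
      linarith

/-- All coefficients vanish. -/
def pzero (l : List ℤ) : Bool := l.all fun a => decide (a = 0)

lemma pzero_spec (ε : ℝ) : ∀ l, pzero l = true → pev ε l = 0
  | [], _ => rfl
  | a :: l, h => by
    simp only [pzero, List.all_cons, Bool.and_eq_true, decide_eq_true_eq] at h
    have := pzero_spec ε l h.2
    simp [pev, h.1, this]

/-- A point of `ℝ^3` whose coordinates are polynomials. -/
structure PPt where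
  x : List ℤ
  y : List ℤ
  z : List ℤ

/-- The point at the parameter `ε`. -/
noncomputable def PPt.ev (ε : ℝ) (A : PPt) : E3 := !₂[pev ε A.x, pev ε A.y, pev ε A.z]

/-- Difference. -/
def PPt.sub (A B : PPt) : PPt := ⟨padd A.x (pneg B.x), padd A.y (pneg B.y), padd A.z (pneg B.z)⟩

/-- Determinant of three vectors. -/
def pdet (A B C : PPt) : List ℤ :=
  padd (pmul A.x (padd (pmul B.y C.z) (pneg (pmul B.z C.y))))
    (padd (pmul A.y (padd (pmul B.z C.x) (pneg (pmul B.x C.z))))
      (pmul A.z (padd (pmul B.x C.y) (pneg (pmul B.y C.x)))))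

/-- The real determinant. -/
def rdet (a b c : Fin 3 → ℝ) : ℝ :=
  a 0 * (b 1 * c 2 - b 2 * c 1) + (a 1 * (b 2 * c 0 - b 0 * c 2) + a 2 * (b 0 * c 1 - b 1 * c 0))

/-- The vector of the coordinates. -/
def PPt.vec (ε : ℝ) (A : PPt) : Fin 3 → ℝ := ![pev ε A.x, pev ε A.y, pev ε A.z]

lemma pev_pdet (ε : ℝ) (A B C : PPt) :
    pev ε (pdet A B C) = rdet (A.vec ε) (B.vec ε) (C.vec ε) := by
  simp only [pdet, pev_padd, pev_pmul, pev_pneg, rdet, PPt.vec, Matrix.cons_val_zero,
    Matrix.cons_val_one, Matrix.cons_val]
  ring

lemma vec_sub (ε : ℝ) (A B : PPt) (i : Fin 3) : (A.sub B).vec ε i = A.vec ε i - B.vec ε i := by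
  fin_cases i <;> simp [PPt.vec, PPt.sub, pev_padd, pev_pneg, sub_eq_add_neg]

lemma ev_apply (ε : ℝ) (A : PPt) (i : Fin 3) : (A.ev ε) i = A.vec ε i := by
  fin_cases i <;> rfl

/-- Classification of a pair of sides `AB`, `CD` in the projection along `d`: `some true` if `AB`
passes over `CD`, `some false` if it does not but the pair is in general position. -/
def classify (N : ℤ) (A B C D d : PPt) : Option Bool :=
  let u := B.sub A
  let w := D.sub C
  let g := C.sub A
  let Δ := pdet u w d
  let S := pdet g w d
  let T := pneg (pdet u g d)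
  let R := pneg (pdet u w g)
  if pzero Δ then
    if ppos N S || ppos N (pneg S) || ppos N T || ppos N (pneg T) || ppos N R ||
      ppos N (pneg R) then some false else none
  else if ppos N Δ then
    if ppos N (pneg S) || ppos N (padd S (pneg Δ)) || ppos N (pneg T) ||
      ppos N (padd T (pneg Δ)) then some false
    else if ppos N S && ppos N (padd Δ (pneg S)) && ppos N T && ppos N (padd Δ (pneg T)) then
      if ppos N R then some true else if ppos N (pneg R) then some false else none
    else none
  else if ppos N (pneg Δ) then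
    if ppos N S || ppos N (padd Δ (pneg S)) || ppos N T ||
      ppos N (padd Δ (pneg T)) then some false
    else if ppos N (pneg S) && ppos N (padd S (pneg Δ)) && ppos N (pneg T) &&
        ppos N (padd T (pneg Δ)) then
      if ppos N (pneg R) then some true else if ppos N R then some false else none
    else none
  else none

lemma eq_iff_coord {a b c e d : E3} {s t r : ℝ} :
    (1 - s) • a + s • b = (1 - t) • c + t • e + r • d ↔
      ∀ i : Fin 3, s * (b i - a i) - t * (e i - c i) - r * d i = c i - a i := by
  constructor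
  · intro h i
    have := congrArg (fun v : E3 => v i) h
    simp only [PiLp.add_apply, PiLp.smul_apply, smul_eq_mul] at this
    linarith
  · intro h
    ext i
    simp only [PiLp.add_apply, PiLp.smul_apply, smul_eq_mul]
    linarith [h i]

/-- Cramer's rule, necessity. -/
lemma cramer {u w d g : Fin 3 → ℝ} {s t r : ℝ} (h : ∀ i, s * u i - t * w i - r * d i = g i) :
    s * rdet u w d = rdet g w d ∧ t * rdet u w d = -rdet u g d ∧ r * rdet u w d = -rdet u w g := by
  have h0 := h 0
  have h1 := h 1
  have h2 := h 2
  unfold rdet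
  rw [← h0, ← h1, ← h2]
  refine ⟨by ring, by ring, by ring⟩

/-- Cramer's rule, sufficiency. -/
lemma cramer' {u w d g : Fin 3 → ℝ} (h : rdet u w d ≠ 0) (i : Fin 3) :
    (rdet g w d / rdet u w d) * u i - (-rdet u g d / rdet u w d) * w i -
      (-rdet u w g / rdet u w d) * d i = g i := by
  have h' : ∀ i, rdet g w d * u i + rdet u g d * w i + rdet u w g * d i = rdet u w d * g i := by
    intro i
    fin_cases i <;> simp only [rdet, Fin.zero_eta, Fin.mk_one, Fin.reduceFinMk] <;> ring
  field_simp
  have := h' i
  linarith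

/-- The general position of a pair of segments with respect to `d`. -/
def Gen (d : E3) (e f : E3 × E3) : Prop :=
  ∀ s t r : ℝ, 0 ≤ s → s ≤ 1 → 0 ≤ t → t ≤ 1 →
    (1 - s) • e.1 + s • e.2 = (1 - t) • f.1 + t • f.2 + r • d →
      0 < s ∧ s < 1 ∧ 0 < t ∧ t < 1 ∧ r ≠ 0

theorem classify_spec {N : ℤ} {ε : ℝ} (h0 : 0 < ε) (h1 : ε ≤ 1) (hN : ε * N < 1)
    (A B C D d : PPt) (b : Bool) (hc : classify N A B C D d = some b) :
    Gen (d.ev ε) (A.ev ε, B.ev ε) (C.ev ε, D.ev ε) ∧
      (Over (d.ev ε) (A.ev ε, B.ev ε) (C.ev ε, D.ev ε) ↔ b = true) := by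
  set u : Fin 3 → ℝ := (B.sub A).vec ε with hu
  set w : Fin 3 → ℝ := (D.sub C).vec ε with hw
  set g : Fin 3 → ℝ := (C.sub A).vec ε with hg
  set dd : Fin 3 → ℝ := d.vec ε with hd
  have heq : ∀ s t r : ℝ, (1 - s) • (A.ev ε) + s • (B.ev ε) =
      (1 - t) • (C.ev ε) + t • (D.ev ε) + r • (d.ev ε) ↔
      ∀ i, s * u i - t * w i - r * dd i = g i := by
    intro s t r
    rw [eq_iff_coord]
    refine forall_congr' fun i => ?_
    simp only [ev_apply, hu, hw, hg, hd, vec_sub]
  have hcr : ∀ s t r : ℝ, (1 - s) • (A.ev ε) + s • (B.ev ε) =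
      (1 - t) • (C.ev ε) + t • (D.ev ε) + r • (d.ev ε) →
      s * rdet u w dd = rdet g w dd ∧ t * rdet u w dd = -rdet u g dd ∧
        r * rdet u w dd = -rdet u w g := by
    intro s t r h
    exact cramer ((heq s t r).1 h)
  have pp : ∀ l, ppos N l = true → 0 < pev ε l := ppos_spec h0 h1 hN
  -- a criterion for non-crossing
  have noncross : (∀ s t r : ℝ, 0 ≤ s → s ≤ 1 → 0 ≤ t → t ≤ 1 →
      s * rdet u w dd = rdet g w dd → t * rdet u w dd = -rdet u g dd →
        r * rdet u w dd = -rdet u w g → False) →
      Gen (d.ev ε) (A.ev ε, B.ev ε) (C.ev ε, D.ev ε) ∧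
      (Over (d.ev ε) (A.ev ε, B.ev ε) (C.ev ε, D.ev ε) ↔ false = true) := by
    intro hno
    constructor
    · intro s t r hs0 hs1 ht0 ht1 h
      obtain ⟨e1, e2, e3⟩ := hcr s t r h
      exact (hno s t r hs0 hs1 ht0 ht1 e1 e2 e3).elim
    · constructor
      · rintro ⟨s, t, r, hs0, hs1, ht0, ht1, hr, h⟩
        obtain ⟨e1, e2, e3⟩ := hcr s t r h
        exact (hno s t r hs0.le hs1.le ht0.le ht1.le e1 e2 e3).elim
      · intro h
        exact absurd h (by decide)
  -- a criterion for crossing
  have cross : ∀ b : Bool, rdet u w dd ≠ 0 → 0 < rdet g w dd / rdet u w dd →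
      rdet g w dd / rdet u w dd < 1 → 0 < -rdet u g dd / rdet u w dd →
      -rdet u g dd / rdet u w dd < 1 →
      (if b then 0 < -rdet u w g / rdet u w dd else -rdet u w g / rdet u w dd < 0) →
      Gen (d.ev ε) (A.ev ε, B.ev ε) (C.ev ε, D.ev ε) ∧
      (Over (d.ev ε) (A.ev ε, B.ev ε) (C.ev ε, D.ev ε) ↔ b = true) := by
    intro b hne hs0 hs1 ht0 ht1 hr
    have huniq : ∀ s t r : ℝ, (1 - s) • (A.ev ε) + s • (B.ev ε) =
        (1 - t) • (C.ev ε) + t • (D.ev ε) + r • (d.ev ε) →
        s = rdet g w dd / rdet u w dd ∧ t = -rdet u g dd / rdet u w dd ∧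
          r = -rdet u w g / rdet u w dd := by
      intro s t r h
      obtain ⟨e1, e2, e3⟩ := hcr s t r h
      refine ⟨?_, ?_, ?_⟩
      · rw [eq_div_iff hne]; exact e1
      · rw [eq_div_iff hne]; exact e2
      · rw [eq_div_iff hne]; exact e3
    constructor
    · intro s t r _ _ _ _ h
      obtain ⟨e1, e2, e3⟩ := huniq s t r h
      rw [e1, e2]
      refine ⟨hs0, hs1, ht0, ht1, ?_⟩
      rw [e3]
      cases b with
      | false => exact ne_of_lt (by simpa using hr)
      | true => exact ne_of_gt (by simpa using hr)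
    · cases b with
      | false =>
        simp only [Bool.false_eq_true, if_false, iff_false] at hr ⊢
        rintro ⟨s, t, r, _, _, _, _, hr', h⟩
        obtain ⟨e1, e2, e3⟩ := huniq s t r h
        rw [e3] at hr'
        exact lt_asymm hr hr'
      | true =>
        simp only [if_true, iff_true] at hr ⊢
        refine ⟨_, _, _, hs0, hs1, ht0, ht1, hr, ?_⟩
        rw [heq]
        exact cramer' hne
  simp only [classify] at hc
  have eΔ : pev ε (pdet (B.sub A) (D.sub C) d) = rdet u w dd := pev_pdet _ _ _ _
  have eS : pev ε (pdet (C.sub A) (D.sub C) d) = rdet g w dd := pev_pdet _ _ _ _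
  have eT : pev ε (pneg (pdet (B.sub A) (C.sub A) d)) = -rdet u g dd := by
    rw [pev_pneg, pev_pdet]
  have eR : pev ε (pneg (pdet (B.sub A) (D.sub C) (C.sub A))) = -rdet u w g := by
    rw [pev_pneg, pev_pdet]
  set Δ := pdet (B.sub A) (D.sub C) d with hΔ
  set S := pdet (C.sub A) (D.sub C) d with hS
  set T := pneg (pdet (B.sub A) (C.sub A) d) with hT
  set R := pneg (pdet (B.sub A) (D.sub C) (C.sub A)) with hR
  by_cases hz : pzero Δ = true
  · rw [if_pos hz] at hc
    have hz' : rdet u w dd = 0 := by rw [← eΔ]; exact pzero_spec ε _ hz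
    split_ifs at hc with hcond
    obtain rfl : b = false := by simpa using hc.symm
    apply noncross
    intro s t r _ _ _ _ e1 e2 e3
    rw [hz', mul_zero] at e1 e2 e3
    simp only [Bool.or_eq_true] at hcond
    rcases hcond with ((((hcond | hcond) | hcond) | hcond) | hcond) | hcond
    all_goals
      have := pp _ hcond
      simp only [pev_pneg, eS, eT, eR] at this
      linarith
  · rw [if_neg hz] at hc
    by_cases hp : ppos N Δ = true
    · rw [if_pos hp] at hc
      have hp' : 0 < rdet u w dd := by rw [← eΔ]; exact pp _ hp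
      by_cases hcond : (ppos N (pneg S) || ppos N (padd S (pneg Δ)) || ppos N (pneg T) ||
          ppos N (padd T (pneg Δ))) = true
      · rw [if_pos hcond] at hc
        obtain rfl : b = false := by simpa using hc.symm
        apply noncross
        intro s t r hs0 hs1 ht0 ht1 e1 e2 e3
        simp only [Bool.or_eq_true] at hcond
        have k1 : 0 ≤ s * rdet u w dd := mul_nonneg hs0 hp'.le
        have k2 : s * rdet u w dd ≤ rdet u w dd := mul_le_of_le_one_left hp'.le hs1
        have k3 : 0 ≤ t * rdet u w dd := mul_nonneg ht0 hp'.le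
        have k4 : t * rdet u w dd ≤ rdet u w dd := mul_le_of_le_one_left hp'.le ht1
        rcases hcond with ((hcond | hcond) | hcond) | hcond
        all_goals
          have := pp _ hcond
          simp only [pev_padd, pev_pneg, eS, eT, eΔ] at this
          linarith
      · rw [if_neg hcond] at hc
        by_cases hcond2 : (ppos N S && ppos N (padd Δ (pneg S)) && ppos N T &&
            ppos N (padd Δ (pneg T))) = true
        · rw [if_pos hcond2] at hc
          simp only [Bool.and_eq_true] at hcond2
          obtain ⟨⟨⟨c1, c2⟩, c3⟩, c4⟩ := hcond2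
          have c1' := pp _ c1
          have c2' := pp _ c2
          have c3' := pp _ c3
          have c4' := pp _ c4
          simp only [pev_padd, pev_pneg, eS, eT, eΔ] at c1' c2' c3' c4'
          split_ifs at hc with hr1 hr2
          · obtain rfl : b = true := by simpa using hc.symm
            have hr1' := pp _ hr1
            rw [eR] at hr1'
            refine cross true hp'.ne' (div_pos c1' hp') ?_ (div_pos c3' hp') ?_ ?_
            · rw [div_lt_one hp']; linarith
            · rw [div_lt_one hp']; linarith
            · simpa using div_pos hr1' hp'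
          · obtain rfl : b = false := by simpa using hc.symm
            have hr2' := pp _ hr2
            rw [pev_pneg, eR] at hr2'
            refine cross false hp'.ne' (div_pos c1' hp') ?_ (div_pos c3' hp') ?_ ?_
            · rw [div_lt_one hp']; linarith
            · rw [div_lt_one hp']; linarith
            · simpa using div_neg_of_neg_of_pos (by linarith : -rdet u w g < 0) hp'
        · rw [if_neg hcond2] at hc
          exact absurd hc (by simp)
    · rw [if_neg hp] at hc
      by_cases hm : ppos N (pneg Δ) = true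
      · rw [if_pos hm] at hc
        have hm' : rdet u w dd < 0 := by
          have := pp _ hm
          rw [pev_pneg, eΔ] at this
          linarith
        by_cases hcond : (ppos N S || ppos N (padd Δ (pneg S)) || ppos N T ||
            ppos N (padd Δ (pneg T))) = true
        · rw [if_pos hcond] at hc
          obtain rfl : b = false := by simpa using hc.symm
          apply noncross
          intro s t r hs0 hs1 ht0 ht1 e1 e2 e3
          simp only [Bool.or_eq_true] at hcond
          have k1 : s * rdet u w dd ≤ 0 := mul_nonpos_of_nonneg_of_nonpos hs0 hm'.le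
          have k2 : rdet u w dd ≤ s * rdet u w dd := by nlinarith
          have k3 : t * rdet u w dd ≤ 0 := mul_nonpos_of_nonneg_of_nonpos ht0 hm'.le
          have k4 : rdet u w dd ≤ t * rdet u w dd := by nlinarith
          rcases hcond with ((hcond | hcond) | hcond) | hcond
          all_goals
            have := pp _ hcond
            simp only [pev_padd, pev_pneg, eS, eT, eΔ] at this
            linarith
        · rw [if_neg hcond] at hc
          by_cases hcond2 : (ppos N (pneg S) && ppos N (padd S (pneg Δ)) && ppos N (pneg T) &&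
              ppos N (padd T (pneg Δ))) = true
          · rw [if_pos hcond2] at hc
            simp only [Bool.and_eq_true] at hcond2
            obtain ⟨⟨⟨c1, c2⟩, c3⟩, c4⟩ := hcond2
            have c1' := pp _ c1
            have c2' := pp _ c2
            have c3' := pp _ c3
            have c4' := pp _ c4
            simp only [pev_padd, pev_pneg, eS, eT, eΔ] at c1' c2' c3' c4'
            have d1 : rdet g w dd / rdet u w dd < 1 := by
              rw [div_lt_iff_of_neg hm']; linarith
            have d2 : -rdet u g dd / rdet u w dd < 1 := by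
              rw [div_lt_iff_of_neg hm']; linarith
            have d3 : 0 < rdet g w dd / rdet u w dd :=
              div_pos_of_neg_of_neg (by linarith) hm'
            have d4 : 0 < -rdet u g dd / rdet u w dd :=
              div_pos_of_neg_of_neg (by linarith) hm'
            split_ifs at hc with hr1 hr2
            · obtain rfl : b = true := by simpa using hc.symm
              have hr1' := pp _ hr1
              rw [pev_pneg, eR] at hr1'
              refine cross true hm'.ne d3 d1 d4 d2 ?_
              simpa using div_pos_of_neg_of_neg (by linarith : -rdet u w g < 0) hm'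
            · obtain rfl : b = false := by simpa using hc.symm
              have hr2' := pp _ hr2
              rw [eR] at hr2'
              refine cross false hm'.ne d3 d1 d4 d2 ?_
              simpa using div_neg_of_pos_of_neg hr2' hm'
          · rw [if_neg hcond2] at hc
            exact absurd hc (by simp)
      · rw [if_neg hm] at hc
        exact absurd hc (by simp)

lemma cyc_map {α β : Type*} (f : α → β) (l : List α) :
    cyc (l.map f) = (cyc l).map (Prod.map f f) := by
  unfold cyc
  rw [← List.map_rotate, List.zip_map]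

/-- The check for two polygons. -/
def linkCheck (N : ℤ) (P Q : List PPt) (d : PPt) (n : ℕ) : Bool :=
  ((cyc P ×ˢ cyc Q).all fun x => (classify N x.1.1 x.1.2 x.2.1 x.2.2 d).isSome) &&
  ((cyc P ×ˢ cyc Q).countP (fun x => classify N x.1.1 x.1.2 x.2.1 x.2.2 d == some true) == n)

theorem hasLinking_of_check {N : ℤ} {ε : ℝ} (h0 : 0 < ε) (h1 : ε ≤ 1) (hN : ε * N < 1)
    (P Q : List PPt) (d : PPt) (hd : d.ev ε ≠ 0) (n : ℕ) (h : linkCheck N P Q d n = true) :
    HasLinking (P.map (PPt.ev ε)) (Q.map (PPt.ev ε)) (n : ZMod 2) := by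
  classical
  simp only [linkCheck, Bool.and_eq_true, beq_iff_eq] at h
  obtain ⟨hall, hcount⟩ := h
  have hall' : ∀ e ∈ cyc P, ∀ f ∈ cyc Q, ∃ b, classify N e.1 e.2 f.1 f.2 d = some b := by
    intro e he f hf
    have := List.all_eq_true.1 hall (e, f) (List.mem_product.2 ⟨he, hf⟩)
    exact Option.isSome_iff_exists.1 this
  refine ⟨d.ev ε, hd, ?_, ?_⟩
  · intro e he f hf
    rw [cyc_map, List.mem_map] at he hf
    obtain ⟨e, he, rfl⟩ := he
    obtain ⟨f, hf, rfl⟩ := hf
    obtain ⟨b, hb⟩ := hall' e he f hf
    exact (classify_spec h0 h1 hN e.1 e.2 f.1 f.2 d b hb).1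
  · congr 1
    rw [cyc_map, cyc_map]
    have hprod : ((cyc P).map (Prod.map (PPt.ev ε) (PPt.ev ε)) ×ˢ
        (cyc Q).map (Prod.map (PPt.ev ε) (PPt.ev ε))) =
        (cyc P ×ˢ cyc Q).map
          (Prod.map (Prod.map (PPt.ev ε) (PPt.ev ε)) (Prod.map (PPt.ev ε) (PPt.ev ε))) := by
      simp only [SProd.sprod, List.product, List.flatMap_map, List.map_flatMap, List.map_map]
      rfl
    rw [hprod, List.countP_map, ← hcount]
    apply List.countP_congr
    rintro ⟨e, f⟩ hx
    have hx' := List.mem_product.1 hx
    obtain ⟨b, hb⟩ := hall' e hx'.1 f hx'.2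
    have := (classify_spec h0 h1 hN e.1 e.2 f.1 f.2 d b hb).2
    simp only [Function.comp_apply, decide_eq_true_eq, beq_iff_eq]
    rw [hb]
    simp only [Option.some.injEq]
    exact this

end Pool.Agent.H36.Tight
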