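import Pool.Agent.H36.Tight.General
import Pool.Agent.H36.Tight.Poly

/-!
The example: a surface of genus 2 with 17 vertices and 38 triangles, with integer coordinates,
and the certificates used to verify it.
-/

namespace Pool.Agent.H36.Tight

/-- The coordinates of the vertices. -/
def crdL : List (ℤ × ℤ × ℤ) :=
  [(-7, 0, 10), (-1, 8, 1), (-1, 3, 4), (-7, 6, 0), (-3, 3, 4), (-10, 0, 6), (7, 2, 4),
   (-4, 1, 7), (7, 0, 2), (4, 4, 3), (11, 0, 5), (-10, 3, 0), (0, 10, 0), (-18, 0, 0),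
   (18, 0, 0), (0, 18, 0), (0, 0, 18)]

/-- The coordinates of the vertices. -/
def crd (v : Fin 17) : ℤ × ℤ × ℤ := crdL.getD v.val (0, 0, 0)

/-- The coherently oriented triangles. -/
def tri : List (Fin 17 × Fin 17 × Fin 17) :=
  [(7, 11, 4), (1, 7, 4), (6, 4, 11), (11, 7, 0), (11, 2, 6), (6, 7, 1),
   (6, 10, 4), (4, 9, 1), (6, 3, 10), (3, 6, 1), (11, 12, 2), (7, 6, 2),
   (4, 10, 9), (0, 3, 11), (0, 10, 3), (5, 0, 7), (1, 9, 5), (1, 12, 3),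
   (1, 5, 12), (10, 8, 9), (12, 11, 14), (14, 15, 12), (15, 13, 12), (3, 12, 13),
   (11, 3, 13), (8, 10, 14), (16, 14, 10), (10, 0, 16), (13, 16, 0), (0, 5, 13),
   (13, 15, 16), (15, 14, 16), (2, 5, 7), (5, 2, 12), (9, 8, 5), (13, 14, 11),
   (5, 8, 13), (14, 13, 8)]

/-- The links of the vertices. -/
def lnkL : List (List (Fin 17)) :=
  [[3, 11, 7, 5, 13, 16, 10],
   [7, 4, 9, 5, 12, 3, 6],
   [5, 7, 6, 11, 12],
   [6, 10, 0, 11, 13, 12, 1],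
   [7, 11, 6, 10, 9, 1],
   [2, 7, 0, 13, 8, 9, 1, 12],
   [3, 10, 4, 11, 2, 7, 1],
   [11, 4, 1, 6, 2, 5, 0],
   [9, 5, 13, 14, 10],
   [8, 5, 1, 4, 10],
   [6, 3, 0, 16, 14, 8, 9, 4],
   [7, 4, 6, 2, 12, 14, 13, 3, 0],
   [5, 2, 11, 14, 15, 13, 3, 1],
   [14, 11, 3, 12, 15, 16, 0, 5, 8],
   [13, 11, 12, 15, 16, 10, 8],
   [14, 12, 13, 16],
   [14, 10, 0, 13, 15]]

/-- The links of the vertices. -/
def lnk (v : Fin 17) : List (Fin 17) := lnkL.getD v.val []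

/-- Positive combinations that place a vertex in the convex hull of some of its neighbours. -/
def clmL : List (List (Fin 17 × ℤ)) :=
  [[(5, 9), (13, 2), (16, 7)],
   [(4, 28), (9, 3), (12, 83), (3, 7)],
   [(5, 95), (7, 18), (6, 106), (12, 61)],
   [(11, 2), (13, 9), (12, 15)],
   [(7, 146), (11, 59), (9, 67), (1, 45)],
   [(0, 67), (13, 40), (8, 7)],
   [(3, 2), (10, 53), (2, 8), (1, 15)],
   [(6, 21), (2, 32), (5, 24), (0, 61)],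
   [(5, 36), (13, 5), (14, 67)],
   [(8, 2), (5, 6), (1, 67), (10, 59)],
   [(16, 41), (14, 85), (8, 36)],
   [(14, 5), (13, 31), (3, 36)],
   [(14, 2), (15, 5), (13, 2)]]

/-- Positive combinations that place a vertex in the convex hull of some of its neighbours. -/
def clm (v : Fin 17) : List (Fin 17 × ℤ) := clmL.getD v.val []

/-- Separating functionals for pairs of triangles with a common vertex. The `i`-th row lists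
`(j, n₁, n₂, n₃, k)`. -/
def sep : List (List (ℕ × ℤ × ℤ × ℤ × ℤ)) :=
  [[(1, -1, -1, -1, 4), (2, -4, 0, 7, -40), (3, 1, 3, 0, 1), (4, -1, 0, 2, -10),
    (5, -2, -1, -2, 7), (6, -1, 0, 0, -3), (7, -1, 0, 0, -3), (10, -1, 0, 2, -10),
    (11, -1, 1, 0, -5), (12, -1, 0, 0, -3), (13, 1, -2, -1, 16), (15, 0, 1, 0, -1),
    (20, -1, 0, 2, -10), (24, 1, -2, 0, 16), (32, -7, 31, 14, -157), (35, 0, 1, 1, -3)],
   [(2, 0, 1, 1, -7), (3, 1, 0, 0, 4), (5, -2, 0, -1, -1), (6, 0, 1, 1, -7), (7, -1, 1, 1, -10),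
    (9, -1, 2, 3, -20), (11, -1, 1, 0, -5), (12, -2, 2, 1, -16), (15, 0, 1, 0, -1),
    (16, 2, 23, 40, -222), (17, 0, 0, 1, -1), (18, 1, -1, 0, 9), (32, -1, 7, 4, -39)],
   [(3, 1, 0, -1, 10), (4, -1, -9, 2, 17), (5, -1, -5, -6, 41), (6, 0, 0, -1, 4),
    (7, 0, -2, -1, 10), (8, -3, 0, 11, -23), (9, -1, -4, 0, 15), (10, -2, -19, 4, 37),
    (11, -1, -9, -7, 53), (12, -4, -41, -68, 383), (13, 1, -2, -1, 16), (20, -1, 0, 5, -10),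
    (24, 1, -2, 0, 16), (35, 0, 1, 1, -3)],
   [(4, -1, 0, 1, -10), (5, -1, 0, 0, -4), (10, -1, 0, 1, -10), (11, -1, 0, 0, -4),
    (13, 1, -9, -3, 37), (14, -2, -11, -6, 46), (15, -1, 6, 1, -17), (20, -1, 0, 1, -10),
    (24, 1, -2, 0, 16), (27, -1, 0, -2, 13), (28, 1, 0, -1, 17), (29, 1, 2, 0, 7),
    (32, -7, 31, 14, -157), (35, 0, 1, 1, -3)],
   [(5, -1, -5, -6, 41), (6, 2, 19, -4, -36), (8, -3, 0, 11, -23), (9, -1, -4, 0, 15),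
    (10, 0, -1, 0, 3), (11, 0, 0, -1, 4), (13, 1, -2, -1, 16), (20, -1, 0, 5, -10),
    (24, 1, -2, 0, 16), (32, 0, -1, -2, 11), (33, 1, -2, -3, 19), (35, 0, 1, 1, -3)],
   [(6, 1, 6, 6, -43), (7, 5, 25, 37, -232), (8, 0, 2, 3, -16), (9, 0, 1, 2, -10),
    (11, 1, 4, 5, -35), (15, 0, 1, 0, -1), (16, 5, 27, 41, -252), (17, 0, 0, 1, -1),
    (18, 1, -1, 0, 9), (32, 1, 4, 4, -28)],
   [(7, 0, -1, 0, 3), (8, 0, 1, 2, -10), (9, 0, 1, 3, -14), (11, -1, -9, -9, 61),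
    (12, -3, -31, -51, 288), (14, 8, 47, 28, -228), (19, -3, -3, 5, 8), (25, 0, 1, 1, -5),
    (26, -1, 0, -1, 16), (27, 0, 0, -1, 5)],
   [(9, -5, 5, 23, -68), (12, 0, 1, 1, -7), (16, 2, 20, 35, -193), (17, 0, 0, 1, -1),
    (18, 1, -1, 0, 9), (19, -1, 0, 0, 4), (34, -1, 3, -1, -5)],
   [(9, 0, -1, -1, 6), (11, 0, -2, -3, 16), (12, -3, -32, -53, 298), (13, 1, 0, -1, 7),
    (14, 1, 3, 0, -11), (17, 0, -1, 0, 6), (19, -3, -3, 5, 8), (23, 5, -9, 0, 89),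
    (24, 1, 0, 0, 7), (25, 0, 1, 1, -5), (26, -1, 0, -1, 16), (27, 0, 0, -1, 5)],
   [(11, 0, -1, -3, 14), (13, 1, 0, -1, 7), (14, 1, 4, 1, -17), (16, 5, -5, -23, 68),
    (17, 0, -1, 2, 6), (18, 0, -3, -5, 29), (23, 5, -9, 0, 89), (24, 1, 0, 0, 7)],
   [(11, 0, 1, -1, 1), (13, 3, -4, -3, 42), (17, 4, -6, -9, 60), (18, 4, -6, -9, 60),
    (20, -7, 10, 16, -100), (21, -1, -1, 0, 10), (22, 2, -3, 0, 30), (23, 2, -3, 0, 30),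
    (24, 3, -4, 0, 42), (32, 0, 0, -1, 4), (33, 1, -3, -5, 30), (35, 0, 1, 1, -3)],
   [(15, 0, 1, 0, -1), (32, 1, 0, 1, -3), (33, 1, -2, 0, 7)],
   [(14, 8, 47, 28, -228), (16, 2, 18, 33, -179), (19, 0, 1, 2, -10), (25, 0, 1, 1, -5),
    (26, -1, 0, -1, 16), (27, 0, 0, -1, 5), (34, 1, 11, 19, -105)],
   [(14, -1, 0, 0, -7), (15, -1, 3, 1, -17), (17, 0, -1, 0, 6), (20, -3, 4, 3, -42),
    (23, 5, -9, 0, 89), (24, 1, -1, 0, 13), (27, -1, 0, -1, 3), (28, 1, 0, -1, 17),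
    (29, 1, 2, 0, 7), (35, 0, 1, 1, -3)],
   [(15, 2, 11, 6, -46), (17, 0, -1, 0, 6), (19, -1, -1, 2, 1), (23, 5, -9, 0, 89),
    (24, 1, 0, 1, 7), (25, 0, 1, 1, -5), (26, -1, 0, -1, 16), (27, -5, 0, -18, 145),
    (28, 1, 0, -1, 17), (29, 1, 1, 0, 7)],
   [(16, 0, 0, 1, -6), (18, 0, 0, 1, -6), (27, -1, 0, -2, 13), (28, 1, 0, -1, 17),
    (29, 4, 0, -3, 58), (32, 0, -1, 1, -6), (33, 0, 0, 1, -6), (34, 0, 0, 1, -6),
    (36, 0, 0, 1, -6)],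
   [(17, 0, 0, 1, -1), (18, 2, -1, 2, 8), (19, -1, 0, 0, 4), (29, 1, 0, -1, 16),
    (32, -1, -9, -17, 92), (33, -1, -15, -26, 146), (34, -1, 2, -2, 2), (36, 0, 1, 1, -6)],
   [(18, 0, -1, -2, 10), (20, -2, 3, 5, -30), (21, -1, -1, 0, 10), (22, 9, -16, 0, 160),
    (23, 4, -7, 0, 70), (24, 0, 1, 0, -6), (33, 0, -5, -9, 50)],
   [(20, 0, 1, 3, -10), (21, -1, -1, 0, 10), (22, 1, -1, 1, 10), (23, 1, -1, 1, 10),
    (29, 1, 0, -1, 16), (32, -1, 0, -2, 2), (33, -1, -5, -10, 50), (34, -1, 0, -2, 2),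
    (36, 0, 1, 1, -6)],
   [(25, -3, 0, 4, 13), (26, -1, 0, -1, 16), (27, 0, 0, -1, 5), (34, 1, 1, -1, -5),
    (36, 1, 1, 0, -7), (37, 0, 0, 1, -2)],
   [(21, -5, -9, 0, 90), (22, 2, -3, 0, 30), (23, 2, -3, 0, 30), (24, 3, -4, 0, 42),
    (25, 0, 1, -1, 0), (26, 0, 1, -1, 0), (31, -2, -3, -3, 36), (33, 0, -1, -2, 10),
    (35, 3, 28, 0, -54), (37, 1, 10, 0, -18)],
   [(22, 1, 0, 0, 0), (23, 1, 1, 0, -10), (25, 0, 1, -1, 0), (26, 0, 1, -1, 0),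
    (30, 2, -1, -2, 18), (31, -1, -1, -2, 18), (33, 1, 1, 0, -10), (35, 1, 2, 0, -18),
    (37, 1, 2, 0, -18)],
   [(23, -5, 9, 0, -90), (24, -11, 20, 0, -198), (28, 0, 1, -1, 0), (29, 0, 1, -1, 0),
    (30, 1, -1, -2, 18), (31, -2, -1, -2, 18), (33, -1, 1, -1, -10), (35, -1, 2, 0, -18),
    (36, 0, 1, -1, 0), (37, -1, 2, 0, -18)],
   [(24, -6, 11, 0, -108), (28, 0, 1, -1, 0), (29, 0, 1, -1, 0), (30, 2, -3, -3, 36),
    (33, -1, 0, -2, 0), (35, -1, 2, 0, -18), (36, 0, 1, -1, 0), (37, -1, 2, 0, -18)],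
   [(28, 0, 1, -1, 0), (29, 0, 1, -1, 0), (30, 2, -3, -3, 36), (35, -3, 8, 0, -54),
    (36, 0, 1, -1, 0), (37, -1, 3, 0, -18)],
   [(26, -5, 0, -7, 90), (27, 0, 0, -1, 5), (31, -3, -4, -4, 54), (34, 1, 0, 0, -7),
    (35, 1, 0, 6, -18), (36, 1, 0, 0, -7), (37, 2, 0, 11, -36)],
   [(27, 13, 0, 11, -198), (28, 1, 0, 0, 0), (30, 1, -1, 0, 0), (31, -1, -2, -1, 18),
    (35, 1, 0, 2, -18), (37, 1, 0, 2, -18)],
   [(28, 8, 0, -7, 126), (29, 1, 0, 0, 7), (30, 9, -9, -8, 144), (31, -7, -7, -6, 108)],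
   [(29, -10, 0, 11, -180), (30, 1, -2, -1, 18), (31, -1, -1, 0, 0), (35, -1, 0, 2, -18),
    (36, -4, 0, 5, -72), (37, -1, 0, 2, -18)],
   [(30, 11, -12, -12, 198), (32, -1, 0, 1, -16), (33, -1, 0, 1, -16), (34, -1, 0, 1, -16),
    (35, -1, 0, 2, -18), (36, -3, 0, 4, -54), (37, -1, 0, 2, -18)],
   [(31, -1, 0, 0, 0), (35, -1, 2, 2, -18), (36, -4, 5, 5, -72), (37, -1, 2, 2, -18)],
   [(35, 1, 2, 2, -18), (37, 1, 2, 2, -18)],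
   [(33, 1, -3, 0, 10), (34, -1, 6, 4, -34), (36, 0, 1, 1, -6)],
   [(34, -1, 4, 1, -16), (36, 0, 1, 1, -6)],
   [(36, 4, 0, 17, -62), (37, 0, 0, 1, -2)],
   [(36, 1, 0, -13, 18), (37, 0, 1, -1, 0)],
   [(37, -2, 0, 25, -36)],
   []]

/-- Functionals that vanish on two vertices of a triangle and not on the third one. -/
def fac : List (List (Fin 17 × ℤ × ℤ × ℤ × ℤ)) :=
  [[(7, 0, 4, 0, -12), (11, 0, 3, 2, -17), (4, 0, -7, -2, 21)],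
   [(1, 0, -3, -2, 17), (7, 0, -3, -5, 29), (4, 0, 6, 7, -55)],
   [(6, 0, -4, 0, 12), (4, 0, 4, 1, -12), (11, 0, 0, -1, 4)],
   [(11, 0, 3, 1, -10), (7, 0, -10, -3, 30), (0, 0, 7, 2, -21)],
   [(11, 0, 0, 1, -4), (2, 0, -4, -1, 12), (6, 0, 4, 0, -12)],
   [(6, 0, -6, -7, 55), (7, 0, 3, 6, -30), (1, 0, 3, 1, -10)],
   [(6, 0, -1, -3, 15), (10, 0, 0, 1, -4), (4, 0, 1, 2, -10)],
   [(4, 0, -2, -4, 20), (9, 0, 3, 5, -29), (1, 0, -1, -1, 7)],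
   [(6, 0, 5, 6, -30), (3, 0, -1, -2, 10), (10, 0, -4, -4, 24)],
   [(3, 0, -3, -6, 30), (6, 0, -1, 2, 6), (1, 0, 4, 4, -24)],
   [(11, 0, 4, 7, -40), (12, 0, -4, 0, 12), (2, 0, 0, -7, 0)],
   [(7, 0, 0, -1, 4), (6, 0, 3, 2, -17), (2, 0, -3, -1, 10)],
   [(4, 0, -2, -4, 20), (10, 0, 1, 1, -7), (9, 0, 1, 3, -15)],
   [(0, 0, 0, 3, 0), (3, 0, 10, 3, -30), (11, 0, -10, -6, 60)],
   [(0, 0, -5, -6, 30), (10, 0, 10, 6, -60), (3, 0, -5, 0, 0)],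
   [(5, 0, -3, -1, 10), (0, 0, -1, 1, -6), (7, 0, 4, 0, 0)],
   [(1, 0, 3, 4, -24), (9, 0, -5, -8, 48), (5, 0, 2, 4, -20)],
   [(1, 0, 0, 4, 0), (12, 0, 1, -2, -6), (3, 0, -1, -2, 10)],
   [(1, 0, -6, -10, 60), (5, 0, 1, 2, -10), (12, 0, 5, 8, -48)],
   [(10, 0, 1, -4, 8), (8, 0, 2, 4, -20), (9, 0, -3, 0, 0)],
   [(12, -3, -28, 0, 54), (11, 10, 18, 0, -180), (14, -7, 10, 0, -100)],
   [(14, -8, 0, 0, 0), (15, -10, -18, 0, 180), (12, 18, 18, 0, -324)],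
   [(15, 10, -18, 0, 180), (13, 8, 0, 0, 0), (12, -18, 18, 0, -324)],
   [(3, -10, 18, 0, -180), (12, 6, -11, 0, 108), (13, 4, -7, 0, 70)],
   [(11, -6, 11, 0, -108), (3, 3, -8, 0, 54), (13, 3, -3, 0, 39)],
   [(8, 5, 0, 7, -90), (10, -2, 0, -11, 36), (14, -3, 0, 4, 13)],
   [(16, -5, 0, -7, 90), (14, -13, 0, -11, 198), (10, 18, 0, 18, -324)],
   [(10, -8, 0, 7, -126), (0, 13, 0, 11, -198), (16, -5, 0, -18, 145)],
   [(13, 8, 0, -7, 126), (16, 10, 0, -11, 180), (0, -18, 0, 18, -324)],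
   [(0, 6, 0, -8, 108), (5, -10, 0, 11, -180), (13, 4, 0, -3, 58)],
   [(13, 0, 18, 18, -324), (15, 0, -18, 0, 0), (16, 0, 0, -18, 0)],
   [(15, 0, 18, 0, 0), (14, 0, -18, -18, 324), (16, 0, 0, 18, 0)],
   [(2, 0, 1, -1, 6), (5, 0, -3, -2, 17), (7, 0, 2, 3, -18)],
   [(5, 0, -4, -7, 40), (2, 0, 6, 10, -60), (12, 0, -2, -3, 18)],
   [(9, 0, 4, 0, 0), (8, 0, -3, -4, 24), (5, 0, -1, 4, -8)],
   [(13, 3, 28, 0, -54), (14, -3, 8, 0, -54), (11, 0, -36, 0, 0)],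
   [(5, 2, 0, -25, 36), (8, -6, 0, 8, -108), (13, 4, 0, 17, -62)],
   [(14, -2, 0, 25, -36), (13, 2, 0, 11, -36), (8, 0, 0, -36, 0)]]

end Pool.Agent.H36.Tight
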