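import Mathlib

/-!
Definitions for tight polyhedral immersions of closed surfaces into Euclidean 3-space,
and for the image homotopy class (B) (twisted torus plus a handle).
-/

namespace Pool.Agent.H36.Tight

open scoped Topology

/-- Euclidean 3-space. -/
abbrev E3 := EuclideanSpace ℝ (Fin 3)

/-- The pairs of cyclically consecutive entries of a list. -/
def cyc {α : Type*} (l : List α) : List (α × α) := l.zip (l.rotate 1)

section Surface

variable {V : Type*} [Fintype V] [DecidableEq V]

/-- `l` is the link of the vertex `v`: `l` is a cyclic list of at least three distinct vertices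
different from `v`, and the triangles of `T` at `v` are exactly the triangles `{v, a, b}` with
`a, b` cyclically consecutive in `l`. -/
def IsLink (T : Finset (Finset V)) (v : V) (l : List V) : Prop :=
  3 ≤ l.length ∧ (v :: l).Nodup ∧
    ∀ t, (t ∈ T ∧ v ∈ t) ↔ ∃ e ∈ cyc l, t = {v, e.1, e.2}

/-- The set `T` of triangles (3-element sets of vertices) is a triangulation, with vertex
set `V`, of a closed connected surface: the link of every vertex is a cycle, and any two vertices
are joined by an edge path. -/
structure IsClosedSurface (T : Finset (Finset V)) : Prop where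
  card_eq : ∀ t ∈ T, t.card = 3
  link : ∀ v, ∃ l, IsLink T v l
  connected : ∀ u v, Relation.ReflTransGen (fun a b => ∃ t ∈ T, a ∈ t ∧ b ∈ t) u v

/-- `T` is orientable: one can choose a cyclic order `(a, b, c)` of every triangle such that
every ordered edge (`(a, b)`, `(b, c)` or `(c, a)`) occurs in at most one triangle. -/
def IsOrientable (T : Finset (Finset V)) : Prop :=
  ∃ L : List (V × V × V), L.length = T.card ∧ (∀ t, t ∈ T ↔ ∃ o ∈ L, t = {o.1, o.2.1, o.2.2}) ∧
    (L.flatMap fun o => [(o.1, o.2.1), (o.2.1, o.2.2), (o.2.2, o.1)]).Nodup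

/-- The Euler characteristic: vertices minus edges plus triangles. -/
def eulerChar (T : Finset (Finset V)) : ℤ :=
  Fintype.card V - (T.biUnion fun t => t.powersetCard 2).card + T.card

/-- The geometric realization, in barycentric coordinates, of a family `K` of simplices (given by
their vertex sets): the points of the standard simplex supported in a member of `K`. -/
def realization (K : Set (Finset V)) : Set (V → ℝ) :=
  {x | x ∈ stdSimplex ℝ V ∧ ∃ t ∈ K, ∀ v, v ∉ t → x v = 0}

/-- The map, linear on each simplex, that sends the vertex `v` to `p v`. -/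
noncomputable def plMap (p : V → E3) (x : V → ℝ) : E3 := ∑ v, x v • p v

/-- The map given by `p` is a polyhedral immersion of the triangulated surface `T`: it is locally
one-to-one. -/
def IsImmersion (T : Finset (Finset V)) (p : V → E3) : Prop :=
  ∀ x ∈ realization (T : Set (Finset V)), ∃ U ∈ 𝓝 x,
    Set.InjOn (plMap p) (U ∩ realization (T : Set (Finset V)))

/-- The map given by `p` is tight: the preimage of every closed half-space is connected
(possibly empty). -/
def IsTight (T : Finset (Finset V)) (p : V → E3) : Prop :=
  ∀ (a : E3) (c : ℝ), a ≠ 0 →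
    IsPreconnected {x | x ∈ realization (T : Set (Finset V)) ∧ c ≤ inner ℝ a (plMap p x)}

/-- `c` lists in cyclic order the vertices of a simple closed curve, made of edges of `T`, whose
image under the map given by `p` has no self-intersection. -/
def IsCurve (T : Finset (Finset V)) (p : V → E3) (c : List V) : Prop :=
  3 ≤ c.length ∧ c.Nodup ∧ (∀ e ∈ cyc c, ∃ t ∈ T, e.1 ∈ t ∧ e.2 ∈ t) ∧
    Set.InjOn (plMap p) (realization {s | ∃ e ∈ cyc c, s = {e.1, e.2}})

/-- `s` lists in cyclic order the edges `(v, u)` that issue from the curve `c` on one of its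
sides (`v` on `c`, `u` not on `c`): consecutive ones lie in a common triangle, and
`s` runs once around `c`. -/
def IsSide (T : Finset (Finset V)) (c : List V) (s : List (V × V)) : Prop :=
  (s.map Prod.fst).destutter (· ≠ ·) = c ∧ s.Nodup ∧ (∀ e ∈ s, e.2 ∉ c) ∧
    ∀ e ∈ cyc s, ({e.1.1, e.1.2, e.2.1, e.2.2} : Finset V) ∈ T

/-- The closed curves `a` and `b` meet only in their common first vertex `v`, and they cross
there: their neighbours of `v` alternate in the link of `v`. -/
def Cross (T : Finset (Finset V)) (a b : List V) : Prop :=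
  ∃ v x y z w α β l, a = v :: (x :: α ++ [y]) ∧ b = v :: (z :: β ++ [w]) ∧
    a.tail.Disjoint b.tail ∧ IsLink T v l ∧ [x, z, y, w].Sublist l

end Surface

/-- The segment `e` passes over the segment `f` with respect to the direction `d`. -/
def Over (d : E3) (e f : E3 × E3) : Prop :=
  ∃ s t r : ℝ, 0 < s ∧ s < 1 ∧ 0 < t ∧ t < 1 ∧ 0 < r ∧
    (1 - s) • e.1 + s • e.2 = (1 - t) • f.1 + t • f.2 + r • d

open Classical in
/-- The closed polygons `P` and `Q` (given by their vertices in cyclic order) are disjoint and
have linking number `k` mod 2. It is computed from a projection in a direction `d` that is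
regular (wherever the projections of `P` and `Q` meet, interior points of sides meet), as the
number of crossings at which `P` passes over `Q`. -/
def HasLinking (P Q : List E3) (k : ZMod 2) : Prop :=
  ∃ d : E3, d ≠ 0 ∧
    (∀ e ∈ cyc P, ∀ f ∈ cyc Q, ∀ s t r : ℝ, 0 ≤ s → s ≤ 1 → 0 ≤ t → t ≤ 1 →
      (1 - s) • e.1 + s • e.2 = (1 - t) • f.1 + t • f.2 + r • d →
        0 < s ∧ s < 1 ∧ 0 < t ∧ t < 1 ∧ r ≠ 0) ∧
    (((cyc P ×ˢ cyc Q).countP fun x => Over d x.1 x.2 : ℕ) : ZMod 2) = k

section Twist

variable {V : Type*} [Fintype V] [DecidableEq V]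

/-- The curve `c` has an annulus neighbourhood whose image is a band with `k` full twists
mod 2: for small `ε > 0`, the curve and its parallel in the surface at parameter `ε` (to one
side) have images with linking number `k` mod 2. -/
def HasTwist (T : Finset (Finset V)) (p : V → E3) (c : List V) (k : ZMod 2) : Prop :=
  ∃ s, IsSide T c s ∧ ∀ᶠ ε in 𝓝[>] (0 : ℝ),
    HasLinking (c.map p) (s.map fun e => (1 - ε) • p e.1 + ε • p e.2) k

/-- The immersion given by `p` of the closed orientable surface `T` of genus 2 lies in the image
homotopy class (B) of the twisted torus plus a handle: there is a canonical system of curves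
`a₁, b₁, a₂, b₂` such that `a₁` and `b₁` are twisted and `a₂` and `b₂` are untwisted. -/
def InClassB (T : Finset (Finset V)) (p : V → E3) : Prop :=
  ∃ a₁ b₁ a₂ b₂ : List V, (∀ c ∈ [a₁, b₁, a₂, b₂], IsCurve T p c) ∧
    Cross T a₁ b₁ ∧ Cross T a₂ b₂ ∧ (a₁ ++ b₁).Disjoint (a₂ ++ b₂) ∧
    HasTwist T p a₁ 1 ∧ HasTwist T p b₁ 1 ∧ HasTwist T p a₂ 0 ∧ HasTwist T p b₂ 0

end Twist

end Pool.Agent.H36.Tight
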