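import Pool.Agent.H36.Tight.Data

/-!
Verification of the example.
-/

namespace Pool.Agent.H36.Tight

open scoped Topology

/-- The set of vertices of an ordered triangle. -/
def toF (o : Fin 17 × Fin 17 × Fin 17) : Finset (Fin 17) := {o.1, o.2.1, o.2.2}

/-- The triangles of the example. -/
def TT : Finset (Finset (Fin 17)) := (tri.map toF).toFinset

/-- The position of the vertices in space. -/
noncomputable def pos (v : Fin 17) : E3 := !₂[((crd v).1 : ℝ), ((crd v).2.1 : ℝ), ((crd v).2.2 : ℝ)]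

lemma mem_TT {t : Finset (Fin 17)} : t ∈ TT ↔ ∃ o ∈ tri, toF o = t := by
  unfold TT
  rw [List.mem_toFinset, List.mem_map]

/-! ### Combinatorics -/

/-- Bool check of a link. -/
def lnkCheck (v : Fin 17) (l : List (Fin 17)) : Bool :=
  decide (3 ≤ l.length) && decide (v :: l).Nodup &&
  (tri.all fun o => !(decide (v ∈ toF o)) || (cyc l).any fun e => decide (toF o = {v, e.1, e.2})) &&
  ((cyc l).all fun e => tri.any fun o => decide (toF o = {v, e.1, e.2}))

lemma isLink_of_check {v : Fin 17} {l : List (Fin 17)} (h : lnkCheck v l = true) :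
    IsLink TT v l := by
  simp only [lnkCheck, Bool.and_eq_true, decide_eq_true_eq, List.all_eq_true, Bool.or_eq_true,
    Bool.not_eq_true', decide_eq_false_iff_not, List.any_eq_true] at h
  obtain ⟨⟨⟨h1, h2⟩, h3⟩, h4⟩ := h
  refine ⟨h1, h2, fun t => ⟨?_, ?_⟩⟩
  · rintro ⟨ht, hv⟩
    obtain ⟨o, ho, rfl⟩ := mem_TT.1 ht
    rcases h3 o ho with h | ⟨e, he, h⟩
    · exact absurd hv h
    · exact ⟨e, he, h⟩
  · rintro ⟨e, he, rfl⟩
    refine ⟨?_, Finset.mem_insert_self _ _⟩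
    obtain ⟨o, ho, h⟩ := h4 e he
    exact mem_TT.2 ⟨o, ho, h⟩

lemma lnk_all : ∀ v : Fin 17, lnkCheck v (lnk v) = true := by decide +kernel

lemma distinct_all : (tri.all fun o => decide (o.1 ≠ o.2.1) && decide (o.1 ≠ o.2.2) &&
    decide (o.2.1 ≠ o.2.2)) = true := by decide +kernel

lemma card_all : ∀ o ∈ tri, (toF o).card = 3 := by
  intro o ho
  have := List.all_eq_true.1 distinct_all o ho
  simp only [Bool.and_eq_true, decide_eq_true_eq] at this
  exact Finset.card_eq_three.2 ⟨_, _, _, this.1.1, this.1.2, this.2, rfl⟩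

/-- Two vertices lie in a common triangle. -/
def adjB (a b : Fin 17) : Bool := tri.any fun o => decide (a ∈ toF o) && decide (b ∈ toF o)

lemma adjB_spec {a b : Fin 17} (h : adjB a b = true) : ∃ t ∈ TT, a ∈ t ∧ b ∈ t := by
  simp only [adjB, List.any_eq_true, Bool.and_eq_true, decide_eq_true_eq] at h
  obtain ⟨o, ho, h1, h2⟩ := h
  exact ⟨toF o, mem_TT.2 ⟨o, ho, rfl⟩, h1, h2⟩

/-- A vertex adjacent to a given vertex and to the vertex 13. -/
def par (v : Fin 17) : Fin 17 :=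
  ([13, 5, 5, 13, 11, 13, 3, 11, 13, 8, 3, 13, 13, 13, 13, 13, 13] : List (Fin 17)).getD v.val 0

lemma conn_all : ∀ v : Fin 17, (adjB v (par v) && adjB (par v) 13) = true := by decide +kernel

lemma conn_all' : ∀ v : Fin 17, (adjB 13 (par v) && adjB (par v) v) = true := by decide +kernel

theorem isClosedSurface_TT : IsClosedSurface TT := by
  refine ⟨?_, fun v => ⟨lnk v, isLink_of_check (lnk_all v)⟩, ?_⟩
  · intro t ht
    obtain ⟨o, ho, rfl⟩ := mem_TT.1 ht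
    exact card_all o ho
  · intro u v
    have hu := conn_all u
    have hv := conn_all' v
    simp only [Bool.and_eq_true] at hu hv
    exact (((Relation.ReflTransGen.single (adjB_spec hu.1)).tail (adjB_spec hu.2)).tail
      (adjB_spec hv.1)).tail (adjB_spec hv.2)

lemma card_TT : TT.card = 38 := by decide +kernel

lemma edges_nodup : (tri.flatMap fun o => [(o.1, o.2.1), (o.2.1, o.2.2), (o.2.2, o.1)]).Nodup := by
  decide +kernel

theorem isOrientable_TT : IsOrientable TT := by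
  refine ⟨tri, ?_, ?_, edges_nodup⟩
  · rw [card_TT]; rfl
  · intro t
    rw [mem_TT]
    constructor
    · rintro ⟨o, ho, rfl⟩
      exact ⟨o, ho, rfl⟩
    · rintro ⟨o, ho, rfl⟩
      exact ⟨o, ho, rfl⟩

lemma card_edges : (TT.biUnion fun t => t.powersetCard 2).card = 57 := by decide +kernel

theorem eulerChar_TT : eulerChar TT = -2 := by
  unfold eulerChar
  rw [card_edges, card_TT]
  rfl

/-! ### Coordinates -/

/-- The value of an integral affine functional at an integral point. -/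
def fn (c : ℤ × ℤ × ℤ × ℤ) (v : Fin 17) : ℤ :=
  c.1 * (crd v).1 + c.2.1 * (crd v).2.1 + c.2.2.1 * (crd v).2.2 + c.2.2.2

/-- The normal vector. -/
noncomputable def nrm (c : ℤ × ℤ × ℤ × ℤ) : E3 := !₂[(c.1 : ℝ), (c.2.1 : ℝ), (c.2.2.1 : ℝ)]

lemma inner_nrm (c : ℤ × ℤ × ℤ × ℤ) (v : Fin 17) :
    inner ℝ (nrm c) (pos v) + (c.2.2.2 : ℝ) = ((fn c v : ℤ) : ℝ) := by
  simp only [nrm, pos, fn, PiLp.inner_apply, Fin.sum_univ_three]
  simp
  ring

/-! ### The immersion -/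

/-- Check of a separating functional. -/
def sepOk (c : ℤ × ℤ × ℤ × ℤ) (s t : Finset (Fin 17)) : Bool :=
  decide (∀ w ∈ s, 0 ≤ fn c w ∧ (fn c w = 0 → w ∈ t)) &&
  decide (∀ w ∈ t, fn c w ≤ 0 ∧ (fn c w = 0 → w ∈ s))

/-- Check of a pair of triangles. -/
def pairOk (i j : ℕ) : Bool :=
  let s := toF (tri.getD i (0, 0, 0))
  let t := toF (tri.getD j (0, 0, 0))
  decide (s ∩ t = ∅) || (sep.getD i []).any fun c => c.1 == j && sepOk c.2 s t

lemma pair_all : ((List.range 38).all fun i => (List.range 38).all fun j =>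
    !(decide (i < j)) || pairOk i j) = true := by decide +kernel

/-- Check of the functionals of a triangle. -/
def facOk (i : ℕ) : Bool :=
  let s := toF (tri.getD i (0, 0, 0))
  decide (∀ w ∈ s, ∃ c ∈ fac.getD i [], c.1 = w ∧ fn c.2 w ≠ 0 ∧ ∀ u ∈ s, u ≠ w → fn c.2 u = 0)

lemma fac_all : ((List.range 38).all fun i => facOk i) = true := by decide +kernel

lemma sepOk_spec {c : ℤ × ℤ × ℤ × ℤ} {s t : Finset (Fin 17)} (h : sepOk c s t = true) :
    (∀ w ∈ s, 0 ≤ inner ℝ (nrm c) (pos w) + (c.2.2.2 : ℝ) ∧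
      (inner ℝ (nrm c) (pos w) + (c.2.2.2 : ℝ) = 0 → w ∈ t)) ∧
    (∀ w ∈ t, inner ℝ (nrm c) (pos w) + (c.2.2.2 : ℝ) ≤ 0 ∧
      (inner ℝ (nrm c) (pos w) + (c.2.2.2 : ℝ) = 0 → w ∈ s)) := by
  simp only [sepOk, Bool.and_eq_true, decide_eq_true_eq] at h
  constructor
  · intro w hw
    rw [inner_nrm]
    obtain ⟨h1, h2⟩ := h.1 w hw
    exact ⟨by exact_mod_cast h1, fun h0 => h2 (by exact_mod_cast h0)⟩
  · intro w hw
    rw [inner_nrm]
    obtain ⟨h1, h2⟩ := h.2 w hw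
    exact ⟨by exact_mod_cast h1, fun h0 => h2 (by exact_mod_cast h0)⟩

lemma tri_index {o : Fin 17 × Fin 17 × Fin 17} (h : o ∈ tri) :
    ∃ i < 38, tri.getD i (0, 0, 0) = o := by
  obtain ⟨i, hi, rfl⟩ := List.mem_iff_getElem.1 h
  exact ⟨i, hi, by rw [List.getD_eq_getElem _ _ hi]⟩

lemma pair_spec {i j : ℕ} (hi : i < 38) (hj : j < 38) (hij : i < j)
    (hne : ∃ v, v ∈ toF (tri.getD i (0, 0, 0)) ∧ v ∈ toF (tri.getD j (0, 0, 0))) :
    ∃ c : ℤ × ℤ × ℤ × ℤ, sepOk c (toF (tri.getD i (0, 0, 0))) (toF (tri.getD j (0, 0, 0))) = true := by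
  have h1 := List.all_eq_true.1 pair_all i (List.mem_range.2 hi)
  have h2 := List.all_eq_true.1 h1 j (List.mem_range.2 hj)
  simp only [Bool.or_eq_true, Bool.not_eq_true', decide_eq_false_iff_not] at h2
  rcases h2 with h2 | h2
  · exact absurd hij h2
  · simp only [pairOk, Bool.or_eq_true, decide_eq_true_eq, List.any_eq_true, Bool.and_eq_true,
      beq_iff_eq] at h2
    rcases h2 with h2 | ⟨c, _, _, hc⟩
    · obtain ⟨v, hv1, hv2⟩ := hne
      have : v ∈ (∅ : Finset (Fin 17)) := by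
        rw [← h2]
        exact Finset.mem_inter.2 ⟨hv1, hv2⟩
      exact absurd this (Finset.notMem_empty v)
    · exact ⟨c.2, hc⟩

/-- Negation of a functional. -/
def ngc (c : ℤ × ℤ × ℤ × ℤ) : ℤ × ℤ × ℤ × ℤ := (-c.1, -c.2.1, -c.2.2.1, -c.2.2.2)

lemma fn_ngc (c : ℤ × ℤ × ℤ × ℤ) (v : Fin 17) : fn (ngc c) v = -fn c v := by
  simp only [fn, ngc]
  ring

lemma sepOk_ngc {c : ℤ × ℤ × ℤ × ℤ} {s t : Finset (Fin 17)} (h : sepOk c s t = true) :
    sepOk (ngc c) t s = true := by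
  simp only [sepOk, Bool.and_eq_true, decide_eq_true_eq] at h ⊢
  constructor
  · intro w hw
    rw [fn_ngc]
    obtain ⟨h1, h2⟩ := h.2 w hw
    exact ⟨by omega, fun h0 => h2 (by omega)⟩
  · intro w hw
    rw [fn_ngc]
    obtain ⟨h1, h2⟩ := h.1 w hw
    exact ⟨by omega, fun h0 => h2 (by omega)⟩

theorem facets_TT : ∀ t ∈ TT, ∀ w ∈ t, ∃ (n : E3) (k : ℝ), inner ℝ n (pos w) + k ≠ 0 ∧
      ∀ u ∈ t, u ≠ w → inner ℝ n (pos u) + k = 0 := by
  intro t ht w hw
  obtain ⟨o, ho, rfl⟩ := mem_TT.1 ht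
  obtain ⟨i, hi, rfl⟩ := tri_index ho
  have h1 := List.all_eq_true.1 fac_all i (List.mem_range.2 hi)
  simp only [facOk, decide_eq_true_eq] at h1
  obtain ⟨c, _, _, h2, h3⟩ := h1 w hw
  refine ⟨nrm c.2, (c.2.2.2.2 : ℝ), ?_, ?_⟩
  · rw [inner_nrm]
    exact_mod_cast h2
  · intro u hu huw
    rw [inner_nrm]
    exact_mod_cast h3 u hu huw

theorem isImmersion_TT : IsImmersion TT pos := by
  refine isImmersion_of_certs ?_ facets_TT
  intro t ht t' ht' hne
  obtain ⟨o, ho, rfl⟩ := mem_TT.1 ht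
  obtain ⟨i, hi, rfl⟩ := tri_index ho
  obtain ⟨o', ho', rfl⟩ := mem_TT.1 ht'
  obtain ⟨j, hj, rfl⟩ := tri_index ho'
  rcases lt_trichotomy i j with hij | hij | hij
  · obtain ⟨c, hc⟩ := pair_spec hi hj hij hne
    exact ⟨nrm c, _, sepOk_spec hc⟩
  · subst hij
    refine ⟨0, 0, ?_, ?_⟩
    · intro w hw
      exact ⟨by simp, fun _ => hw⟩
    · intro w hw
      exact ⟨by simp, fun _ => hw⟩
  · obtain ⟨v, hv1, hv2⟩ := hne
    obtain ⟨c, hc⟩ := pair_spec hj hi hij ⟨v, hv2, hv1⟩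
    exact ⟨nrm (ngc c), _, sepOk_spec (sepOk_ngc hc)⟩

/-! ### Tightness -/

lemma vertex_all : ∀ v : Fin 17, adjB v v = true := by decide +kernel

lemma hull_all : ∀ u ∈ ({13, 14, 15, 16} : Finset (Fin 17)), ∀ w ∈ ({13, 14, 15, 16} : Finset (Fin 17)),
    adjB u w = true := by decide +kernel

/-- The coefficients of the positive combinations. -/
def cf (v w : Fin 17) : ℤ := ((clm v).lookup w).getD 0

lemma cf_all : ∀ v : Fin 17, v ∉ ({13, 14, 15, 16} : Finset (Fin 17)) →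
    (∀ w, 0 ≤ cf v w ∧ (cf v w ≠ 0 → adjB v w = true)) := by decide +kernel

lemma cf_sum : ∀ v : Fin 17,
    (∑ w, cf v w * ((crd w).1 - (crd v).1) = 0) ∧
    (∑ w, cf v w * ((crd w).2.1 - (crd v).2.1) = 0) ∧
    (∑ w, cf v w * ((crd w).2.2 - (crd v).2.2) = 0) := by decide +kernel

/-- The determinant of three integral difference vectors. -/
def idet (v a b c : Fin 17) : ℤ :=
  let u := ((crd a).1 - (crd v).1, (crd a).2.1 - (crd v).2.1, (crd a).2.2 - (crd v).2.2)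
  let w := ((crd b).1 - (crd v).1, (crd b).2.1 - (crd v).2.1, (crd b).2.2 - (crd v).2.2)
  let d := ((crd c).1 - (crd v).1, (crd c).2.1 - (crd v).2.1, (crd c).2.2 - (crd v).2.2)
  u.1 * (w.2.1 * d.2.2 - w.2.2 * d.2.1) + (u.2.1 * (w.2.2 * d.1 - w.1 * d.2.2) +
    u.2.2 * (w.1 * d.2.1 - w.2.1 * d.1))

lemma span_all : ∀ v : Fin 17, v ∉ ({13, 14, 15, 16} : Finset (Fin 17)) →
    (∃ w ∈ ({13, 14, 15, 16} : Finset (Fin 17)), cf v w ≠ 0) ∨
    ∃ a ∈ (clm v).map Prod.fst, ∃ b ∈ (clm v).map Prod.fst, ∃ c ∈ (clm v).map Prod.fst,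
      cf v a ≠ 0 ∧ cf v b ≠ 0 ∧ cf v c ≠ 0 ∧ idet v a b c ≠ 0 := by decide +kernel


lemma inner_pos_sub (a : E3) (w v : Fin 17) : inner ℝ a (pos w - pos v) =
    a 0 * (((crd w).1 - (crd v).1 : ℤ) : ℝ) + a 1 * (((crd w).2.1 - (crd v).2.1 : ℤ) : ℝ) +
      a 2 * (((crd w).2.2 - (crd v).2.2 : ℤ) : ℝ) := by
  simp only [pos, PiLp.inner_apply, Fin.sum_univ_three]
  simp
  ring

lemma eq_zero_of_idet {v b c d : Fin 17} (h : idet v b c d ≠ 0) (a : E3)
    (h1 : inner ℝ a (pos b - pos v) = 0) (h2 : inner ℝ a (pos c - pos v) = 0)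
    (h3 : inner ℝ a (pos d - pos v) = 0) : a = 0 := by
  have hr : ((idet v b c d : ℤ) : ℝ) ≠ 0 := by exact_mod_cast h
  rw [inner_pos_sub] at h1 h2 h3
  have e0 : a 0 * ((idet v b c d : ℤ) : ℝ) = 0 := by
    simp only [idet]
    push_cast at h1 h2 h3 ⊢
    linear_combination
      (((crd c).2.1 - (crd v).2.1 : ℝ) * ((crd d).2.2 - (crd v).2.2 : ℝ) -
        ((crd c).2.2 - (crd v).2.2 : ℝ) * ((crd d).2.1 - (crd v).2.1 : ℝ)) * h1 +
      (((crd d).2.1 - (crd v).2.1 : ℝ) * ((crd b).2.2 - (crd v).2.2 : ℝ) -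
        ((crd d).2.2 - (crd v).2.2 : ℝ) * ((crd b).2.1 - (crd v).2.1 : ℝ)) * h2 +
      (((crd b).2.1 - (crd v).2.1 : ℝ) * ((crd c).2.2 - (crd v).2.2 : ℝ) -
        ((crd b).2.2 - (crd v).2.2 : ℝ) * ((crd c).2.1 - (crd v).2.1 : ℝ)) * h3
  have e1 : a 1 * ((idet v b c d : ℤ) : ℝ) = 0 := by
    simp only [idet]
    push_cast at h1 h2 h3 ⊢
    linear_combination
      (((crd c).2.2 - (crd v).2.2 : ℝ) * ((crd d).1 - (crd v).1 : ℝ) -
        ((crd c).1 - (crd v).1 : ℝ) * ((crd d).2.2 - (crd v).2.2 : ℝ)) * h1 +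
      (((crd d).2.2 - (crd v).2.2 : ℝ) * ((crd b).1 - (crd v).1 : ℝ) -
        ((crd d).1 - (crd v).1 : ℝ) * ((crd b).2.2 - (crd v).2.2 : ℝ)) * h2 +
      (((crd b).2.2 - (crd v).2.2 : ℝ) * ((crd c).1 - (crd v).1 : ℝ) -
        ((crd b).1 - (crd v).1 : ℝ) * ((crd c).2.2 - (crd v).2.2 : ℝ)) * h3
  have e2 : a 2 * ((idet v b c d : ℤ) : ℝ) = 0 := by
    simp only [idet]
    push_cast at h1 h2 h3 ⊢
    linear_combination
      (((crd c).1 - (crd v).1 : ℝ) * ((crd d).2.1 - (crd v).2.1 : ℝ) -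
        ((crd c).2.1 - (crd v).2.1 : ℝ) * ((crd d).1 - (crd v).1 : ℝ)) * h1 +
      (((crd d).1 - (crd v).1 : ℝ) * ((crd b).2.1 - (crd v).2.1 : ℝ) -
        ((crd d).2.1 - (crd v).2.1 : ℝ) * ((crd b).1 - (crd v).1 : ℝ)) * h2 +
      (((crd b).1 - (crd v).1 : ℝ) * ((crd c).2.1 - (crd v).2.1 : ℝ) -
        ((crd b).2.1 - (crd v).2.1 : ℝ) * ((crd c).1 - (crd v).1 : ℝ)) * h3
  have f0 : a 0 = 0 := (mul_eq_zero.1 e0).resolve_right hr
  have f1 : a 1 = 0 := (mul_eq_zero.1 e1).resolve_right hr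
  have f2 : a 2 = 0 := (mul_eq_zero.1 e2).resolve_right hr
  ext i
  fin_cases i
  · exact f0
  · exact f1
  · exact f2

theorem isTight_TT : IsTight TT pos := by
  refine isTight_of_certs {13, 14, 15, 16} ?_ ?_ ?_
  · intro v
    obtain ⟨t, ht, h1, _⟩ := adjB_spec (vertex_all v)
    exact ⟨t, ht, h1⟩
  · intro u hu w hw
    exact adjB_spec (hull_all u hu w hw)
  · intro v hv
    refine ⟨fun w => (cf v w : ℝ), ?_, ?_, ?_, ?_⟩
    · intro w
      exact Int.cast_nonneg (cf_all v hv w).1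
    · intro w hw
      exact adjB_spec ((cf_all v hv w).2 (Int.cast_ne_zero.1 hw))
    · obtain ⟨h1, h2, h3⟩ := cf_sum v
      have key : ∀ i : Fin 3, (∑ w, (cf v w : ℝ) • (pos w - pos v)) i =
          ∑ w, (cf v w : ℝ) * ((pos w) i - (pos v) i) := by
        intro i
        rw [WithLp.ofLp_sum, Finset.sum_apply]
        refine Finset.sum_congr rfl fun w _ => ?_
        simp only [PiLp.smul_apply, PiLp.sub_apply, smul_eq_mul]
      ext i
      rw [key i]
      fin_cases i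
      · have : ((∑ w, cf v w * ((crd w).1 - (crd v).1) : ℤ) : ℝ) = 0 := by rw [h1]; simp
        push_cast at this
        exact this
      · have : ((∑ w, cf v w * ((crd w).2.1 - (crd v).2.1) : ℤ) : ℝ) = 0 := by rw [h2]; simp
        push_cast at this
        exact this
      · have : ((∑ w, cf v w * ((crd w).2.2 - (crd v).2.2) : ℤ) : ℝ) = 0 := by rw [h3]; simp
        push_cast at this
        exact this
    · rcases span_all v hv with ⟨w, hw, h0⟩ | ⟨b, _, c, _, d, _, hb, hc, hd, hdet⟩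
      · exact Or.inl ⟨w, hw, Int.cast_ne_zero.2 h0⟩
      · right
        intro a ha
        exact eq_zero_of_idet hdet a (ha b (Int.cast_ne_zero.2 hb)) (ha c (Int.cast_ne_zero.2 hc))
          (ha d (Int.cast_ne_zero.2 hd))

/-! ### Curves -/

/-- Bool check of a curve with three vertices. -/
def curveCheck (a b c : Fin 17) (l : List (Fin 17 × ℤ × ℤ × ℤ × ℤ)) : Bool :=
  decide ([a, b, c].Nodup) && adjB a b && adjB b c && adjB c a &&
  decide (∀ w ∈ ({a, b, c} : Finset (Fin 17)), ∃ f ∈ l, f.1 = w ∧ fn f.2 w ≠ 0 ∧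
    ∀ u ∈ ({a, b, c} : Finset (Fin 17)), u ≠ w → fn f.2 u = 0)

lemma isCurve_of_check {a b c : Fin 17} {l : List (Fin 17 × ℤ × ℤ × ℤ × ℤ)}
    (h : curveCheck a b c l = true) : IsCurve TT pos [a, b, c] := by
  simp only [curveCheck, Bool.and_eq_true, decide_eq_true_eq] at h
  obtain ⟨⟨⟨⟨h1, h2⟩, h3⟩, h4⟩, h5⟩ := h
  have hcyc : cyc [a, b, c] = [(a, b), (b, c), (c, a)] := rfl
  refine ⟨le_refl _, h1, ?_, ?_⟩
  · intro e he
    rw [hcyc] at he
    simp only [List.mem_cons, List.not_mem_nil, or_false] at he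
    rcases he with rfl | rfl | rfl
    · exact adjB_spec h2
    · exact adjB_spec h3
    · exact adjB_spec h4
  · rintro x ⟨hxs, s, ⟨e, he, rfl⟩, hx⟩ y ⟨hys, s', ⟨e', he', rfl⟩, hy⟩ hxy
    have hB : ∀ t ∈ ({{a, b, c}} : Finset (Finset (Fin 17))), ∀ w ∈ t,
        ∃ (n : E3) (k : ℝ), inner ℝ n (pos w) + k ≠ 0 ∧
        ∀ u ∈ t, u ≠ w → inner ℝ n (pos u) + k = 0 := by
      intro t ht w hw
      rw [Finset.mem_singleton] at ht
      subst ht
      obtain ⟨f, _, _, g1, g2⟩ := h5 w hw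
      refine ⟨nrm f.2, (f.2.2.2.2 : ℝ), ?_, ?_⟩
      · rw [inner_nrm]
        exact_mod_cast g1
      · intro u hu huw
        rw [inner_nrm]
        exact_mod_cast g2 u hu huw
    have hsub : ∀ e ∈ cyc [a, b, c], ∀ v, v ∉ ({a, b, c} : Finset (Fin 17)) →
        v ∉ ({e.1, e.2} : Finset (Fin 17)) := by
      intro e he v hv hv'
      apply hv
      rw [hcyc] at he
      simp only [List.mem_cons, List.not_mem_nil, or_false] at he
      rcases he with rfl | rfl | rfl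
      all_goals
        simp only [Finset.mem_insert, Finset.mem_singleton] at hv' ⊢
        tauto
    refine eq_of_support hB (Finset.mem_singleton_self _) hxs hys ?_ ?_ hxy
    · intro v hv
      exact hx v (hsub e he v hv)
    · intro v hv
      exact hy v (hsub e' he' v hv)

/-! ### Twist -/

/-- A vertex as a constant polynomial point. -/
def cst (v : Fin 17) : PPt := ⟨[(crd v).1], [(crd v).2.1], [(crd v).2.2]⟩

/-- A point near `e.1` on the edge `e`. -/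
def lin (e : Fin 17 × Fin 17) : PPt :=
  ⟨[(crd e.1).1, (crd e.2).1 - (crd e.1).1], [(crd e.1).2.1, (crd e.2).2.1 - (crd e.1).2.1],
    [(crd e.1).2.2, (crd e.2).2.2 - (crd e.1).2.2]⟩

lemma ev_cst (ε : ℝ) (v : Fin 17) : (cst v).ev ε = pos v := by
  simp only [PPt.ev, cst, pos, pev]
  simp

lemma ev_lin (ε : ℝ) (e : Fin 17 × Fin 17) :
    (lin e).ev ε = (1 - ε) • pos e.1 + ε • pos e.2 := by
  ext i
  fin_cases i <;> simp [PPt.ev, lin, pos, pev] <;> ring

lemma hasTwist_of_check (c : List (Fin 17)) (s : List (Fin 17 × Fin 17)) (hs : IsSide TT c s)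
    (d : ℤ × ℤ × ℤ) (hd : d ≠ (0, 0, 0)) (n : ℕ)
    (h : linkCheck 100 (c.map cst) (s.map lin) ⟨[d.1], [d.2.1], [d.2.2]⟩ n = true) :
    HasTwist TT pos c (n : ZMod 2) := by
  refine ⟨s, hs, ?_⟩
  have hmem : Set.Ioo (0 : ℝ) (1 / 100) ∈ nhdsWithin (0 : ℝ) (Set.Ioi 0) :=
    Ioo_mem_nhdsGT (by norm_num)
  filter_upwards [hmem] with ε hε
  have h0 : 0 < ε := hε.1
  have h1 : ε ≤ 1 := by linarith [hε.2]
  have hN : ε * ((100 : ℤ) : ℝ) < 1 := by
    have := hε.2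
    push_cast
    linarith
  have hdne : (PPt.mk [d.1] [d.2.1] [d.2.2]).ev ε ≠ 0 := by
    intro h0'
    apply hd
    have e0 := congrArg (fun v : E3 => v 0) h0'
    have e1 := congrArg (fun v : E3 => v 1) h0'
    have e2 := congrArg (fun v : E3 => v 2) h0'
    simp [PPt.ev, pev] at e0 e1 e2
    obtain ⟨a, b, c⟩ := d
    simp only at e0 e1 e2
    rw [e0, e1, e2]
  have := hasLinking_of_check h0 h1 hN (c.map cst) (s.map lin) _ hdne n h
  rw [List.map_map, List.map_map] at this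
  have e1 : (PPt.ev ε ∘ cst) = pos := by
    funext v
    exact ev_cst ε v
  have e2 : (PPt.ev ε ∘ lin) = fun e => (1 - ε) • pos e.1 + ε • pos e.2 := by
    funext e
    exact ev_lin ε e
  rw [e1, e2] at this
  exact this

/-- Bool check of a side. -/
def sideCheck (c : List (Fin 17)) (s : List (Fin 17 × Fin 17)) : Bool :=
  decide ((s.map Prod.fst).destutter (· ≠ ·) = c) && decide s.Nodup &&
  (s.all fun e => decide (e.2 ∉ c)) &&
  (cyc s).all fun e => tri.any fun o => decide (toF o = {e.1.1, e.1.2, e.2.1, e.2.2})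

lemma isSide_of_check {c : List (Fin 17)} {s : List (Fin 17 × Fin 17)}
    (h : sideCheck c s = true) : IsSide TT c s := by
  simp only [sideCheck, Bool.and_eq_true, decide_eq_true_eq, List.all_eq_true,
    List.any_eq_true] at h
  obtain ⟨⟨⟨h1, h2⟩, h3⟩, h4⟩ := h
  refine ⟨h1, h2, h3, ?_⟩
  intro e he
  obtain ⟨o, ho, h⟩ := h4 e he
  exact mem_TT.2 ⟨o, ho, h⟩

end Pool.Agent.H36.Tight
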