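import Pool.Agent.H36.Tight.Defs

/-!
General criteria for immersions and tightness.
-/

namespace Pool.Agent.H36.Tight

open scoped Topology

variable {V : Type*} [Fintype V] [DecidableEq V]

lemma inner_plMap (p : V → E3) (n : E3) (x : V → ℝ) :
    inner ℝ n (plMap p x) = ∑ v, x v * inner ℝ n (p v) := by
  unfold plMap
  rw [inner_sum]
  refine Finset.sum_congr rfl fun v _ => ?_
  rw [real_inner_smul_right]

lemma affine_plMap (p : V → E3) (n : E3) (k : ℝ) (x : V → ℝ) (hx : x ∈ stdSimplex ℝ V) :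
    inner ℝ n (plMap p x) + k = ∑ v, x v * (inner ℝ n (p v) + k) := by
  rw [inner_plMap]
  have h1 : ∑ v, x v = 1 := hx.2
  have : ∑ v, x v * (inner ℝ n (p v) + k) = ∑ v, x v * inner ℝ n (p v) + (∑ v, x v) * k := by
    rw [Finset.sum_mul, ← Finset.sum_add_distrib]
    refine Finset.sum_congr rfl fun v _ => by ring
  rw [this, h1, one_mul]

/-- If each triangle is mapped injectively, then points supported in a triangle are determined by
their image. -/
lemma eq_of_support {T : Finset (Finset V)} {p : V → E3}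
    (hB : ∀ t ∈ T, ∀ w ∈ t, ∃ (n : E3) (k : ℝ), inner ℝ n (p w) + k ≠ 0 ∧
      ∀ u ∈ t, u ≠ w → inner ℝ n (p u) + k = 0)
    {t : Finset V} (ht : t ∈ T) {x y : V → ℝ} (hx : x ∈ stdSimplex ℝ V) (hy : y ∈ stdSimplex ℝ V)
    (hxt : ∀ v, v ∉ t → x v = 0) (hyt : ∀ v, v ∉ t → y v = 0) (h : plMap p x = plMap p y) :
    x = y := by
  funext w
  by_cases hw : w ∈ t
  · obtain ⟨n, k, h1, h2⟩ := hB t ht w hw
    have key : ∀ z : V → ℝ, z ∈ stdSimplex ℝ V → (∀ v, v ∉ t → z v = 0) →
        inner ℝ n (plMap p z) + k = z w * (inner ℝ n (p w) + k) := by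
      intro z hz hzt
      rw [affine_plMap p n k z hz]
      rw [Finset.sum_eq_single w]
      · intro v _ hv
        by_cases hvt : v ∈ t
        · rw [h2 v hvt hv, mul_zero]
        · rw [hzt v hvt, zero_mul]
      · intro hw'
        exact absurd (Finset.mem_univ w) hw'
    have e1 := key x hx hxt
    have e2 := key y hy hyt
    rw [h] at e1
    have : x w * (inner ℝ n (p w) + k) = y w * (inner ℝ n (p w) + k) := by rw [← e1, ← e2]
    exact mul_right_cancel₀ h1 this
  · rw [hxt w hw, hyt w hw]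

/-- Certificates for local injectivity. -/
theorem isImmersion_of_certs {T : Finset (Finset V)} {p : V → E3}
    (hA : ∀ t ∈ T, ∀ t' ∈ T, (∃ v, v ∈ t ∧ v ∈ t') → ∃ (n : E3) (k : ℝ),
      (∀ w ∈ t, 0 ≤ inner ℝ n (p w) + k ∧ (inner ℝ n (p w) + k = 0 → w ∈ t')) ∧
      (∀ w ∈ t', inner ℝ n (p w) + k ≤ 0 ∧ (inner ℝ n (p w) + k = 0 → w ∈ t)))
    (hB : ∀ t ∈ T, ∀ w ∈ t, ∃ (n : E3) (k : ℝ), inner ℝ n (p w) + k ≠ 0 ∧
      ∀ u ∈ t, u ≠ w → inner ℝ n (p u) + k = 0) :
    IsImmersion T p := by
  intro x hx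
  obtain ⟨hxs, t₀, ht₀, hxt₀⟩ := hx
  have hpos : ∃ v, 0 < x v := by
    by_contra hcon
    push Not at hcon
    have : ∑ v, x v ≤ 0 := Finset.sum_nonpos fun v _ => hcon v
    rw [hxs.2] at this
    linarith
  obtain ⟨v, hv⟩ := hpos
  refine ⟨{y | 0 < y v}, ?_, ?_⟩
  · exact (isOpen_lt continuous_const (continuous_apply v)).mem_nhds hv
  · rintro y ⟨hyv, hys, t, ht, hyt⟩ z ⟨hzv, hzs, t', ht', hzt'⟩ hyz
    simp only [Set.mem_ofPred_eq] at hyv hzv
    have hvt : v ∈ t := by
      by_contra hcon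
      rw [hyt v hcon] at hyv
      exact lt_irrefl _ hyv
    have hvt' : v ∈ t' := by
      by_contra hcon
      rw [hzt' v hcon] at hzv
      exact lt_irrefl _ hzv
    obtain ⟨n, k, h1, h2⟩ := hA t ht t' ht' ⟨v, hvt, hvt'⟩
    have ey := affine_plMap p n k y hys
    have ez := affine_plMap p n k z hzs
    have gy : ∀ w, 0 ≤ y w * (inner ℝ n (p w) + k) := by
      intro w
      by_cases hw : w ∈ t
      · exact mul_nonneg (hys.1 w) (h1 w hw).1
      · rw [hyt w hw, zero_mul]
    have gz : ∀ w, z w * (inner ℝ n (p w) + k) ≤ 0 := by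
      intro w
      by_cases hw : w ∈ t'
      · exact mul_nonpos_of_nonneg_of_nonpos (hzs.1 w) (h2 w hw).1
      · rw [hzt' w hw, zero_mul]
    have sy : 0 ≤ ∑ w, y w * (inner ℝ n (p w) + k) := Finset.sum_nonneg fun w _ => gy w
    have sz : ∑ w, z w * (inner ℝ n (p w) + k) ≤ 0 := Finset.sum_nonpos fun w _ => gz w
    have eyz : ∑ w, y w * (inner ℝ n (p w) + k) = ∑ w, z w * (inner ℝ n (p w) + k) := by
      rw [← ey, ← ez, hyz]
    have hzt : ∀ w, w ∉ t → z w = 0 := by
      intro w hw
      by_cases hw' : w ∈ t'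
      · have hz0 : ∑ w, z w * (inner ℝ n (p w) + k) = 0 := by linarith
        have := (Finset.sum_eq_zero_iff_of_nonpos (fun w _ => gz w)).1 hz0 w (Finset.mem_univ w)
        rcases mul_eq_zero.1 this with h | h
        · exact h
        · exact absurd ((h2 w hw').2 h) hw
      · exact hzt' w hw'
    exact eq_of_support hB ht hys hzs hyt hzt hyz

/-- The vertex `v` as a point of the realization. -/
def vtx (v : V) : V → ℝ := Pi.single v 1

lemma vtx_mem (v : V) : vtx v ∈ stdSimplex ℝ V := single_mem_stdSimplex ℝ v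

lemma plMap_vtx (p : V → E3) (v : V) : plMap p (vtx v) = p v := by
  unfold plMap vtx
  rw [Finset.sum_eq_single v]
  · simp
  · intro b _ hb
    simp [Pi.single_eq_of_ne hb]
  · intro h
    exact absurd (Finset.mem_univ v) h

lemma joined_vtx {T : Finset (Finset V)} {p : V → E3} {a : E3} {c : ℝ} {x : V → ℝ}
    (hxs : x ∈ stdSimplex ℝ V) {t : Finset V} (ht : t ∈ T) (hxt : ∀ v, v ∉ t → x v = 0)
    (hxc : c ≤ inner ℝ a (plMap p x)) {w : V} (hw : w ∈ t) (hwc : c ≤ inner ℝ a (p w)) :
    JoinedIn {x | x ∈ realization (T : Set (Finset V)) ∧ c ≤ inner ℝ a (plMap p x)} x (vtx w) := by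
  apply JoinedIn.of_segment_subset
  intro z hz
  obtain ⟨α, β, hα, hβ, hαβ, rfl⟩ := hz
  refine ⟨⟨?_, t, ht, ?_⟩, ?_⟩
  · exact (convex_stdSimplex ℝ V) hxs (vtx_mem w) hα hβ hαβ
  · intro v hv
    have h1 : x v = 0 := hxt v hv
    have h2 : vtx w v = 0 := by
      unfold vtx
      have : v ≠ w := fun h => hv (h ▸ hw)
      exact Pi.single_eq_of_ne this _
    simp [h1, h2]
  · have : inner ℝ a (plMap p (α • x + β • vtx w)) =
        α * inner ℝ a (plMap p x) + β * inner ℝ a (p w) := by
      rw [← plMap_vtx p w]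
      rw [inner_plMap, inner_plMap, inner_plMap, Finset.mul_sum, Finset.mul_sum,
        ← Finset.sum_add_distrib]
      refine Finset.sum_congr rfl fun v _ => ?_
      simp only [Pi.add_apply, Pi.smul_apply, smul_eq_mul]
      ring
    rw [this]
    calc c = α * c + β * c := by rw [← add_mul, hαβ, one_mul]
      _ ≤ _ := add_le_add (mul_le_mul_of_nonneg_left hxc hα) (mul_le_mul_of_nonneg_left hwc hβ)

/-- Certificates for tightness. -/
theorem isTight_of_certs {T : Finset (Finset V)} {p : V → E3} (hull : Finset V)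
    (hT : ∀ v, ∃ t ∈ T, v ∈ t)
    (hhull : ∀ u ∈ hull, ∀ w ∈ hull, ∃ t ∈ T, u ∈ t ∧ w ∈ t)
    (hclimb : ∀ v, v ∉ hull → ∃ l : V → ℝ, (∀ w, 0 ≤ l w) ∧
      (∀ w, l w ≠ 0 → ∃ t ∈ T, v ∈ t ∧ w ∈ t) ∧ (∑ w, l w • (p w - p v) = 0) ∧
      ((∃ w ∈ hull, l w ≠ 0) ∨
        ∀ a : E3, (∀ w, l w ≠ 0 → inner ℝ a (p w - p v) = 0) → a = 0)) :
    IsTight T p := by
  intro a c ha
  set K : Set (V → ℝ) := {x | x ∈ realization (T : Set (Finset V)) ∧
    c ≤ inner ℝ a (plMap p x)} with hK
  -- two adjacent vertices in the half space are joined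
  have hadj : ∀ u w : V, (∃ t ∈ T, u ∈ t ∧ w ∈ t) → c ≤ inner ℝ a (p u) → c ≤ inner ℝ a (p w) →
      JoinedIn K (vtx u) (vtx w) := by
    rintro u w ⟨t, ht, hu, hw⟩ hcu hcw
    refine joined_vtx (vtx_mem u) ht ?_ (by rw [plMap_vtx]; exact hcu) hw hcw
    intro v hv
    have : v ≠ u := fun h => hv (h ▸ hu)
    exact Pi.single_eq_of_ne this _
  -- climbing
  have hcl : ∀ n : ℕ, ∀ v : V, (Finset.univ.filter fun w => inner ℝ a (p v) < inner ℝ a (p w)).card
      = n → c ≤ inner ℝ a (p v) → ∃ u ∈ hull, c ≤ inner ℝ a (p u) ∧ JoinedIn K (vtx v) (vtx u) := by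
    intro n
    induction n using Nat.strong_induction_on with
    | _ n ih =>
      intro v hn hv
      by_cases hvh : v ∈ hull
      · refine ⟨v, hvh, hv, ?_⟩
        obtain ⟨t, ht, hvt⟩ := hT v
        exact hadj v v ⟨t, ht, hvt, hvt⟩ hv hv
      · obtain ⟨l, hl0, hladj, hlsum, hl⟩ := hclimb v hvh
        by_cases hex : ∃ w, l w ≠ 0 ∧ inner ℝ a (p v) < inner ℝ a (p w)
        · obtain ⟨w, hw0, hw⟩ := hex
          have hcw : c ≤ inner ℝ a (p w) := le_trans hv hw.le
          have hlt : (Finset.univ.filter fun w' => inner ℝ a (p w) < inner ℝ a (p w')).card < n := by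
            rw [← hn]
            apply Finset.card_lt_card
            constructor
            · intro w' hw'
              simp only [Finset.mem_filter, Finset.mem_univ, true_and] at hw' ⊢
              exact lt_trans hw hw'
            · intro hsub
              have : w ∈ Finset.univ.filter fun w' => inner ℝ a (p v) < inner ℝ a (p w') := by
                simp only [Finset.mem_filter, Finset.mem_univ, true_and]
                exact hw
              have := hsub this
              simp only [Finset.mem_filter, Finset.mem_univ, true_and] at this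
              exact lt_irrefl _ this
          obtain ⟨u, hu, hcu, hj⟩ := ih _ hlt w rfl hcw
          exact ⟨u, hu, hcu, (hadj v w (hladj w hw0) hv hcw).trans hj⟩
        · push Not at hex
          have hs : ∑ w, l w * (inner ℝ a (p w) - inner ℝ a (p v)) = 0 := by
            have h0 : inner ℝ a (∑ w, l w • (p w - p v)) = 0 := by rw [hlsum, inner_zero_right]
            rw [inner_sum] at h0
            rw [← h0]
            refine Finset.sum_congr rfl fun w _ => ?_
            rw [real_inner_smul_right, inner_sub_right]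
          have hnp : ∀ w ∈ Finset.univ, l w * (inner ℝ a (p w) - inner ℝ a (p v)) ≤ 0 := by
            intro w _
            by_cases hw : l w = 0
            · rw [hw, zero_mul]
            · exact mul_nonpos_of_nonneg_of_nonpos (hl0 w) (by linarith [hex w hw])
          have hz := (Finset.sum_eq_zero_iff_of_nonpos hnp).1 hs
          have heq : ∀ w, l w ≠ 0 → inner ℝ a (p w) = inner ℝ a (p v) := by
            intro w hw
            rcases mul_eq_zero.1 (hz w (Finset.mem_univ w)) with h | h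
            · exact absurd h hw
            · linarith
          rcases hl with ⟨w, hwh, hw0⟩ | hl
          · have hcw : c ≤ inner ℝ a (p w) := by rw [heq w hw0]; exact hv
            exact ⟨w, hwh, hcw, hadj v w (hladj w hw0) hv hcw⟩
          · refine absurd (hl a ?_) ha
            intro w hw
            rw [inner_sub_right, heq w hw, sub_self]
  -- every point is joined to a hull vertex
  have hpt : ∀ x ∈ K, ∃ u ∈ hull, c ≤ inner ℝ a (p u) ∧ JoinedIn K x (vtx u) := by
    rintro x ⟨⟨hxs, t, ht, hxt⟩, hxc⟩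
    have hex : ∃ w ∈ t, c ≤ inner ℝ a (p w) := by
      by_contra hcon
      push Not at hcon
      have h1 := affine_plMap p a (-c) x hxs
      have h2 : ∑ v, x v * (inner ℝ a (p v) + -c) < 0 := by
        apply Finset.sum_neg'
        · intro v _
          by_cases hv : v ∈ t
          · exact mul_nonpos_of_nonneg_of_nonpos (hxs.1 v) (by linarith [hcon v hv])
          · rw [hxt v hv, zero_mul]
        · have hpos : ∃ v, 0 < x v := by
            by_contra hcon'
            push Not at hcon'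
            have : ∑ v, x v ≤ 0 := Finset.sum_nonpos fun v _ => hcon' v
            rw [hxs.2] at this
            linarith
          obtain ⟨v, hv⟩ := hpos
          have hvt : v ∈ t := by
            by_contra hc
            rw [hxt v hc] at hv
            exact lt_irrefl _ hv
          exact ⟨v, Finset.mem_univ v, mul_neg_of_pos_of_neg hv (by linarith [hcon v hvt])⟩
      linarith
    obtain ⟨w, hwt, hwc⟩ := hex
    obtain ⟨u, hu, hcu, hj⟩ := hcl _ w rfl hwc
    exact ⟨u, hu, hcu, (joined_vtx hxs ht hxt hxc hwt hwc).trans hj⟩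
  apply isPreconnected_of_forall_pair
  intro x hx y hy
  obtain ⟨u, hu, hcu, hju⟩ := hpt x hx
  obtain ⟨w, hw, hcw, hjw⟩ := hpt y hy
  have hj : JoinedIn K x y := (hju.trans (hadj u w (hhull u hu w hw) hcu hcw)).trans hjw.symm
  obtain ⟨γ, hγ⟩ := hj
  refine ⟨Set.range γ, ?_, ⟨0, γ.source⟩, ⟨1, γ.target⟩, isPreconnected_range γ.continuous⟩
  rintro _ ⟨s, rfl⟩
  exact hγ s

end Pool.Agent.H36.Tight
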